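import Mathlib

/-!
# Images of torsion-free PI rings (MP_097e5c_al): definitions and statements of the parts
-/

set_option autoImplicit false

namespace Pool.TF48

/-- the free associative ring with identity on `X`: integer combinations of words -/
abbrev FA (X : Type) : Type := MonoidAlgebra ℤ (FreeMonoid X)

/-- the value of `f` at elements `r x` of a ring with identity -/
noncomputable def lft {X B : Type} [Ring B] (r : X → B) : FA X →+* B :=
  (MonoidAlgebra.lift ℤ B (FreeMonoid X) (FreeMonoid.lift r)).toRingHom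

/-- the value of `f` at elements `r x` of a ring without identity, computed in `ℤ ⊕ R` -/
noncomputable def ev {X R : Type} [NonUnitalRing R] (r : X → R) : FA X →+* Unitization ℤ R :=
  lft (fun x => (r x : Unitization ℤ R))

/-- `R` satisfies an identity `f` (without constant term) one of whose coefficients is `1` -/
def PI (R : Type) [NonUnitalRing R] : Prop :=
  ∃ f : FA ℕ, f.coeff 1 = 0 ∧ (∃ w, f.coeff w = 1) ∧ ∀ r : ℕ → R, ev r f = 0

/-- the additive group of `S` is torsion-free -/
def TorsionFree (S : Type) [NonUnitalRing S] : Prop :=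
  ∀ (k : ℕ) (s : S), k ≠ 0 → k • s = 0 → s = 0

/-- `R` is a homomorphic image of a torsion-free PI ring -/
def Good (R : Type) [NonUnitalRing R] : Prop :=
  ∃ (S : Type) (_ : NonUnitalRing S), PI S ∧ TorsionFree S ∧
    ∃ φ : S →ₙ+* R, Function.Surjective φ

/-- left-normed commutators `[r 0, r 1, …, r n]` -/
def lnc {R : Type} [NonUnitalRing R] (r : ℕ → R) : ℕ → R
  | 0 => r 0
  | n + 1 => lnc r n * r (n + 1) - r (n + 1) * lnc r n

/-- Part JEN (Jennings; about 120 lines).  In a Lie nilpotent ring the ideal generated by the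
commutators `[x, y, z]` is nilpotent.  Here `N` is any set-theoretic description of this ideal:
`N` is the smallest additive subgroup containing all `[x,y,z]` and closed under left and right
multiplication; the product of `m` of its elements is zero.

Proof: let `γ n` be the additive subgroup generated by the left-normed commutators of length `n`,
`T n` the ideal generated by `γ n`; `T (c + 1) = 0`.  Claim: `T n * T 3 ⊆ T (n + 1)` for `n ≥ 2`
(then `(T 3) ^ (c - 1) ⊆ T (c + 1) = 0`).  Modulo `T (n + 1)` the set `γ n` is central, and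
for `v ∈ γ (n - 1)`: `0 = [[v, w z], y] = [v, w] [z, y] + [w, y] [v, z]`, so
`[v, w] [z, y] = - [v, z] [w, y]` (the `[v, ·]` are central).  Put `z = [a, b]`, `y = c`:
`[v, w] [[a, b], c] = - [v, [a, b]] [w, c]` and `[v, [a, b]] = [[v, a], b] - [[v, b], a]` is in
`γ (n + 1)`. -/
def S_JEN : Prop :=
  ∀ (R : Type) [NonUnitalRing R] (c : ℕ), (∀ r : ℕ → R, lnc r c = 0) →
    ∃ m : ℕ, 1 ≤ m ∧ ∀ N : AddSubgroup R, (∀ a ∈ N, ∀ b : R, a * b ∈ N ∧ b * a ∈ N) →
      (∀ M : AddSubgroup R, (∀ a ∈ M, ∀ b : R, a * b ∈ M ∧ b * a ∈ M) →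
        (∀ x y z : R, (x * y - y * x) * z - z * (x * y - y * x) ∈ M) → N ≤ M) →
      ∀ a : Fin m → R, (∀ i, a i ∈ N) →
        (List.ofFn (fun i => (a i : Unitization ℤ R))).prod = 0

/-- Part LIE3 (about 250 lines).  Every ring with `[x, y, z] = 0` is an image of a torsion-free PI
ring.

Proof: well-order the generating set `X = R`.  In `R`: commutators are central;
`[a, b] b = [a b, b]` is central, so `[a, b] [b, d] = 0`; `[[a, b c], d] = 0` gives
`[a, b] [c, d] = - [a, c] [b, d]`.  So products `[a₁, a₂] ⋯ [a₂ₖ₋₁, a₂ₖ]` are alternating in all `2 k`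
arguments.  Hence every word in the generators is an integer combination of the products
`x^α · [x_{i₁}, x_{i₂}] ⋯ [x_{i₂ₖ₋₁}, x_{i₂ₖ}]` with `i₁ < ⋯ < i₂ₖ`, `x^α` an ordered monomial, the
coefficients being the same in every ring with `[x,y,z] = 0`.  In the ring `Λ ⊗ ℤ[t]` (exterior
algebra `Λ` on `e_x`, commuting variables `t_x`), with `x ↦ t_x + e_x`, these products are linearly
independent (`[x, y] = 2 e_x e_y`; take `{i₁, …}` of minimal size).  So the subring `S` generated by
the `t_x + e_x` in `Λ ⊗ ℤ[t]` maps onto `R`, is torsion-free, and satisfies `[x, y, z] = 0`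
(even elements of `Λ` are central). -/
def S_LIE3 : Prop :=
  ∀ (R : Type) [NonUnitalRing R],
    (∀ x y z : R, (x * y - y * x) * z = z * (x * y - y * x)) → Good R

/-- Part MAT (about 100 lines).  A ring that embeds in `n × n` matrices over a commutative ring is an
image of a torsion-free PI ring.  Proof: take `S` = the preimage of (the image of) `R` in the `n × n`
matrices over `MvPolynomial C ℤ`.  PI: the standard polynomial of degree `n ^ 2 + 1` (an alternating
map on a module generated by `n ^ 2` elements; `FA ℕ`-element `∑ σ, sign σ • word (σ 0, …, σ (n^2))`).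
-/
def S_MAT : Prop :=
  ∀ (R : Type) [NonUnitalRing R] (C : Type) [CommRing C] (n : ℕ)
    (i : R →ₙ+* Matrix (Fin n) (Fin n) C), Function.Injective i → Good R

/-- Permanence: a ring with finitely many homomorphisms to good rings the product of whose kernels
is zero is good. -/
def S_PERM : Prop :=
  ∀ (R : Type) [NonUnitalRing R] (k : ℕ) (R' : Fin (k + 1) → Type)
    [∀ i, NonUnitalRing (R' i)] (π : ∀ i, R →ₙ+* R' i), (∀ i, Good (R' i)) →
    (∀ a : Fin (k + 1) → R, (∀ i, π i (a i) = 0) →
      (List.ofFn (fun i => (a i : Unitization ℤ R))).prod = 0) → Good R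

/-- the congruence modulo `p R` -/
def modCon (R : Type) [NonUnitalRing R] (p : ℕ) : RingCon R where
  r a b := ∃ c : R, a - b = p • c
  iseqv := by
    refine ⟨fun a => ⟨0, by simp⟩, ?_, ?_⟩
    · rintro a b ⟨c, hc⟩
      exact ⟨-c, by rw [smul_neg, ← hc]; abel⟩
    · rintro a b d ⟨c, hc⟩ ⟨e, he⟩
      exact ⟨c + e, by rw [smul_add, ← hc, ← he]; abel⟩
  mul' := by
    rintro a b d e ⟨c, hc⟩ ⟨f, hf⟩
    refine ⟨c * d + b * f, ?_⟩
    have : a * d - b * e = (a - b) * d + b * (d - e) := by
      rw [sub_mul, mul_sub]; abel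
    rw [this, hc, hf, smul_add, smul_mul_assoc, mul_smul_comm]
  add' := by
    rintro a b d e ⟨c, hc⟩ ⟨f, hf⟩
    exact ⟨c + f, by rw [smul_add, ← hc, ← hf]; abel⟩

/-- Part BT (about 120 lines, uses PERM).  Reduction to `R / p R` for bounded torsion.  Proof: the
kernels are `t(R)` (torsion elements; `R / t(R)` is itself a torsion-free PI ring) and `p R`
for the primes `p ∣ m` with multiplicity; `t(R) * m R = 0`. -/
def S_BT : Prop :=
  ∀ (R : Type) [NonUnitalRing R] (m : ℕ), m ≠ 0 → PI R →
    (∀ (k : ℕ) (r : R), k ≠ 0 → k • r = 0 → m • r = 0) →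
    (∀ p : ℕ, p.Prime → p ∣ m → Good (modCon R p).Quotient) → Good R

/-! ### Semiprime PI rings (Kaplansky, Amitsur) -/

/-- `R` satisfies a multilinear identity of degree `d + 1` with coefficient `1` at the identity
monomial -/
def MI (d : ℕ) (R : Type) [NonUnitalRing R] : Prop :=
  ∃ a : Equiv.Perm (Fin (d + 1)) → ℤ, a 1 = 1 ∧ ∀ x : Fin (d + 1) → R,
    ∑ σ, a σ • (List.ofFn (fun i => (x (σ i) : Unitization ℤ R))).prod = 0

/-- `R` has no nonzero nilpotent ideals -/
def Semiprime (R : Type) [NonUnitalRing R] : Prop := ∀ a : R, (∀ b : R, a * b * a = 0) → a = 0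

/-- Part LEV (about 120 lines).  A nil semiprime ring with a multilinear identity is zero.
Proof: induction on the degree.  If `a ≠ 0` there is `a ≠ 0` with `a * a = 0`.  Write
`f = x₁ g(x₂, …) + (monomials not beginning with x₁)`; substitute `x_j = a r_j` for `j ≥ 2` and
multiply by `a` on the left: `a x₁ g(a r₂, …) = 0` for all `x₁`.  So the ring `U = a R` modulo
`{u : U u = 0}` satisfies `g` (of smaller degree), is nil and semiprime, so it is zero by
induction: `a R a R = 0`, and `a = 0` as `R` is semiprime. -/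
def S_LEV : Prop :=
  ∀ (d : ℕ) (R : Type) [NonUnitalRing R], MI d R →
    (∀ r : R, ∃ n : ℕ, (r : Unitization ℤ R) ^ (n + 1) = 0) → Semiprime R → ∀ a : R, a = 0

/-- Part PRIM (about 250 lines).  Kaplansky's theorem.  Let `V` be a simple module over the ring `B`
and let the ideal `I` of `B` satisfy a multilinear identity and `I V ≠ 0`.  Then `B / Ann V`
embeds in `(d + 1) × (d + 1)` matrices over a field.
Proof: `D = End_B V` is a division ring, `F` a maximal commutative subfield of `D` (Zorn).  The
subring `B F` of `End V` has `V` as a simple module with `End_{B F} V = F`; the ideal `I F` is also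
dense in `End_F V` (Jacobson density: for `F`-independent `v₁, …, v_m` and any `w₁, …, w_m` there is
`x ∈ I F` with `x vᵢ = wᵢ`) and satisfies the same multilinear identity.  If `v₀, …, v_{d+1}` were
independent, take `xᵢ ∈ I F` with `xᵢ v_{i+1} = vᵢ` and `xᵢ v_j = 0` for `j ≠ i + 1`:
`x₀ x₁ ⋯ x_d v_{d+1} = v₀` and all other products of all the `xᵢ` kill `v_{d+1}`; contradiction.
So `dim_F V ≤ d + 1`; pad the matrices of `B → End_F V` with zeros. -/
def S_PRIM : Prop :=
  ∀ (B : Type) [Ring B] (V : Type) [AddCommGroup V] [Module B V] [IsSimpleModule B V]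
    (I : AddSubgroup B), (∀ x ∈ I, ∀ b : B, x * b ∈ I ∧ b * x ∈ I) → (∃ x ∈ I, ∃ v : V, x • v ≠ 0) →
    ∀ (d : ℕ) (a : Equiv.Perm (Fin (d + 1)) → ℤ), a 1 = 1 →
      (∀ x : Fin (d + 1) → B, (∀ i, x i ∈ I) →
        ∑ σ, a σ • (List.ofFn (fun i => x (σ i))).prod = 0) →
      ∃ (F : Type) (_ : Field F) (g : B →ₙ+* Matrix (Fin (d + 1)) (Fin (d + 1)) F),
        ∀ b : B, g b = 0 → ∀ v : V, b • v = 0

/-- Part KAP (about 200 lines, theorem kap (h1 : S_LEV) (h2 : S_PRIM) : S_KAP).  A semiprime ring with
a multilinear identity embeds in matrices over a commutative ring.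
Proof: let `B = (Unitization ℤ R)[t]`.  The elements `r` of `R` with `C r` in the Jacobson radical of
`B` form a nil ideal of `R`: `1 - r t` is a unit of `B`, so `r` is nilpotent.  A nil ideal of a semiprime
ring is itself a nil semiprime ring with the same identity: zero by LEV.  So for every `r ≠ 0` in `R` some
simple `B`-module `V_r` has `C r • V_r ≠ 0`.  `I = R[t]` (polynomials with coefficients in `R`)
satisfies the multilinear identity; PRIM gives a homomorphism `g_r` of `B` to matrices over a
field `F_r` with `g_r (C r) ≠ 0`; take `C = ∏ r, F_r`. -/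
def S_KAP : Prop :=
  ∀ (d : ℕ) (R : Type) [NonUnitalRing R], MI d R → Semiprime R →
    ∃ (n : ℕ) (C : Type) (_ : CommRing C) (i : R →ₙ+* Matrix (Fin n) (Fin n) C),
      Function.Injective i

end Pool.TF48
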