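import Pool.Agent.Helper48.TF.Defs4

/-!
# Stage 3: every PI ring satisfies a multilinear identity with a coefficient `1` (Amitsur)
-/

set_option autoImplicit false

namespace Pool.TF48

/-- Part POL (about 120 lines).  Polarization.
Proof: for `T ⊆ Fin (n + 1)` put `r_T l = ∑ i ∈ T with w0 i = l, x i`.  Then
`0 = ∑ T, (-1) ^ |Tᶜ| • ev r_T f = ∑ w, f.coeff w • ∑ g, (∑ T ⊇ range g, (-1) ^ |Tᶜ|) • x (g 0) ⋯`, where
`g : Fin w.length → Fin (n + 1)` runs over the maps with `w0 ∘ g = w`; the inner sum is `1` if `g` is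
surjective and `0` otherwise.  Words longer than `n + 1` do not contribute, for shorter words `g`
is not surjective, for `w.length = n + 1` `g` is a permutation and `w = w0 ∘ g`. -/
def S_POL : Prop :=
  ∀ (R : Type) [NonUnitalRing R] (f : FA ℕ), (∀ r : ℕ → R, ev r f = 0) →
    ∀ (n : ℕ) (w0 : Fin (n + 1) → ℕ),
    (∀ w : FreeMonoid ℕ, n + 1 < (FreeMonoid.toList w).length → ∀ r : R, f.coeff w • r = 0) →
    ∀ x : Fin (n + 1) → R, ∑ σ : Equiv.Perm (Fin (n + 1)),
      f.coeff (FreeMonoid.ofList (List.ofFn (fun i => w0 (σ i)))) •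
        (List.ofFn (fun i => (x (σ i) : Unitization ℤ R))).prod = 0

/-- Part PSD (about 120 lines).  A semiprime ring is a subdirect product of prime rings.
Proof: `a₀ = a`, `aₙ₊₁ = aₙ bₙ aₙ ≠ 0`; by Zorn there is an ideal `P` maximal among the ideals without any
`aₙ`; `R / P` is prime: if `x R y ⊆ P`, `x, y ∉ P`, some `aₙ` is in `P + (x)` and in `P + (y)` and
`aₙ₊₁ = aₙ bₙ aₙ ∈ P`.  (Quotient by an additive subgroup which is an ideal: `idCon`, `mkCon`, `mk_idCon`
in Pool/Agent/Helper48/TF/FIN.lean and BT.lean.) -/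
def S_PSD : Prop :=
  ∀ (R : Type) [NonUnitalRing R], Semiprime R → ∀ a : R, a ≠ 0 →
    ∃ (R' : Type) (_ : NonUnitalRing R') (π : R →ₙ+* R'), Function.Surjective π ∧
      (∀ x y : R', (∀ z, x * z * y = 0) → x = 0 ∨ y = 0) ∧ π a ≠ 0

/-- Part STD (about 60 lines, theorem std (h1 : S_LEV) (h2 : S_PRIM) : S_STD).  The standard identity.
Proof: the proof of KAP (Pool/Agent/Helper94/TF/KAP.lean) embeds `R` in the `(d + 1) × (d + 1)` matrices
over a product of fields `∏ r, F r`; the standard identity holds over every field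
(`Pool.TF48.H41.standard`, Pool/Agent/Helper41/TF/MAT.lean), so over the product. -/
def S_STD : Prop :=
  ∀ (d : ℕ) (R : Type) [NonUnitalRing R], MI d R → Semiprime R →
    ∀ x : Fin ((d + 1) * (d + 1) + 1) → R,
      ∑ σ : Equiv.Perm (Fin ((d + 1) * (d + 1) + 1)), ((Equiv.Perm.sign σ : ℤˣ) : ℤ) •
        (List.ofFn (fun i => (x (σ i) : Unitization ℤ R))).prod = 0

/-- Part UP (about 60 lines).  Multiply the identity by further variables on the right:
`a' σ = a τ` if `σ` fixes all `i > d` and acts as `τ` on the others, `a' σ = 0` otherwise (one step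
`d → d + 1` and induction). -/
def S_UP : Prop :=
  ∀ (d D : ℕ) (R : Type) [NonUnitalRing R], d ≤ D → MI d R → MI D R

/-- Part SPI (about 150 lines; theorem spi (h1 : S_POL) (h2 : S_PSD) (h3 : S_STD) (h4 : S_UP)
(h5 : S_LIN) : S_SPI).  A semiprime PI ring satisfies a standard identity.
Proof: for `a ≠ 0` in `R` choose a prime image `R' a`, `π a` with `π a a ≠ 0` (PSD).  A prime ring is
torsion-free or killed by a prime `p`.  The product of all torsion-free `R' a` is a torsion-free PI
ring, so `MI d₀` for it and for these `R' a` (LIN, `mi_surj`).  If `p R' a = 0`: let `n + 1` be the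
maximal length of words `w` with `p ∤ f.coeff w` and `w0` such a word; POL gives a multilinear
identity of degree `n + 1` with coefficient `f.coeff w0`, prime to `p`; multiply by an inverse
modulo `p` and change the coefficient at `1` to `1`.  So all `R' a` satisfy `MI D` (UP) with
the same `D`, so the standard identity of degree `(D + 1)² + 1`, so its values in `R` are `0`. -/
def S_SPI : Prop :=
  ∀ (R : Type) [NonUnitalRing R], PI R → Semiprime R → ∃ m : ℕ, ∀ x : Fin (m + 1) → R,
    ∑ σ : Equiv.Perm (Fin (m + 1)), ((Equiv.Perm.sign σ : ℤˣ) : ℤ) •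
      (List.ofFn (fun i => (x (σ i) : Unitization ℤ R))).prod = 0

end Pool.TF48
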