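import Pool.Agent.Helper48.TF.Defs

/-!
# Stage 2: tensor products (Regev) and the sum of the nilpotent ideals (Amitsur, Levitzki)
-/

set_option autoImplicit false

namespace Pool.TF48

/-- Part LIN (about 150 lines).  A torsion-free ring with an identity having a coefficient `1` satisfies
a multilinear identity.
Proof: let the word `w₀ = (l 0, …, l (n-1))` have coefficient `1` in `f`.  For `x : Fin n → S` put
`r_l = ∑ i with l i = l, t_i x_i` in `(Unitization ℤ S)[t_0, …, t_{n-1}]` (for instance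
`AddMonoidAlgebra (Unitization ℤ S) (Fin n →₀ ℕ)`).  For all integers `t_i` the value `f(r)` is `0`, so all
coefficients of the polynomial `f(r)` are `0` (the coefficients lie in a finitely generated
torsion-free, so free, abelian group; `MvPolynomial.funext`).  The coefficient of
`t_0 ⋯ t_{n-1}` is `∑ σ, (coefficient of (l (σ 0), …, l (σ (n-1))) in f) • x (σ 0) ⋯ x (σ (n-1))`. -/
def S_LIN : Prop :=
  ∀ (S : Type) [NonUnitalRing S], TorsionFree S → PI S → ∃ d, MI d S

/-- `σ` has a decreasing subsequence of length `k` -/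
def Bad (k n : ℕ) (σ : Equiv.Perm (Fin n)) : Prop :=
  ∃ p : Fin k → Fin n, StrictMono p ∧ StrictAnti (fun i => σ (p i))

/-- Part LATY (about 200 lines, Latyshev).  Monomials without decreasing subsequence of length `d + 1`
span.
Proof: induction on `σ` in the lexicographic order of `(σ 0, σ 1, …)`.  If `σ` is bad with `p`, write
the monomial as `w₀ y₀ y₁ ⋯ y_d`, where `y_j` is the product of the letters in the positions
`p j, …, p (j+1) - 1` (and to the end for `j = d`).  By the identity
`w₀ y₀ ⋯ y_d = - ∑ τ ≠ 1, a τ • w₀ y_{τ 0} ⋯ y_{τ d}`, and these monomials are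
lexicographically smaller (`y_j` begins with the letter `σ (p j)`). -/
def S_LATY : Prop :=
  ∀ (d : ℕ) (S : Type) [NonUnitalRing S], MI d S → ∀ (n : ℕ) (σ : Equiv.Perm (Fin (n + 1))),
    ∃ c : Equiv.Perm (Fin (n + 1)) → ℤ, (∀ τ, c τ ≠ 0 → ¬ Bad (d + 1) (n + 1) τ) ∧
      ∀ x : Fin (n + 1) → S, (List.ofFn (fun i => (x (σ i) : Unitization ℤ S))).prod =
        ∑ τ, c τ • (List.ofFn (fun i => (x (τ i) : Unitization ℤ S))).prod

/-- Part CNT (about 150 lines).  There are at most `k ^ (2 n)` permutations of `n` points without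
decreasing subsequence of length `k + 1`.
Proof: let `ℓ i` in `Fin k` be (the largest length of a decreasing subsequence ending in `i`) `- 1`.  The
map `σ ↦ (ℓ, ℓ ∘ σ⁻¹)` is injective: if `i < j` and `ℓ i = ℓ j` then `σ i < σ j`; so `σ` is the
increasing bijection from `{i | ℓ i = c}` to `{v | ℓ (σ⁻¹ v) = c}` for every `c`. -/
def S_CNT : Prop :=
  ∀ k n : ℕ, Nat.card {σ : Equiv.Perm (Fin n) // ¬ Bad (k + 1) n σ} ≤ k ^ (2 * n)

/-- Part REG (about 150 lines; theorem reg (h1 : S_LATY) (h2 : S_CNT) : S_REG).  Regev's theorem.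
Proof: choose `n` with `((dA + 1) (dB + 1)) ^ (2 (n+1)) < (n+1)!`, so that (number of good
permutations for `dA`) * (the same for `dB`) `< (n+1)!`.  Let `c, c'` be the coefficients of LATY for
`A` and `B`.  The integer linear system `∑ σ, a σ * c σ τ * c' σ τ' = 0` (`τ`, `τ'` good) has
a nonzero integer solution `a`.  Then
`∑ σ, a σ • ∏ β (x (σ i)) (y (σ i)) = ∑ σ, a σ • β (∏ x (σ i)) (∏ y (σ i)) = 0`; by multilinearity
`a` is an identity of `S` (`S` is additively generated by the `β a b`).  Divide by the gcd of the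
coefficients (`S` is torsion-free).  Permuting the variables and taking integer combinations gives an
identity with coefficient `1` at the identity permutation (`Finset.gcd_eq_gcd_image`,
`Finset.exists_sum_eq_gcd`, or: the coefficients at `1` of the identities of degree `n + 1` form an
ideal of `ℤ` which contains all the coefficients of `a`). -/
def S_REG : Prop :=
  ∀ (A B S : Type) [NonUnitalRing A] [NonUnitalRing B] [NonUnitalRing S] (dA dB : ℕ)
    (β : A →+ B →+ S), MI dA A → MI dB B → TorsionFree S →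
    (∀ a b a' b', β a b * β a' b' = β (a * a') (b * b')) →
    (∀ s : S, s ∈ AddSubgroup.closure {s | ∃ a b, s = β a b}) → ∃ n, MI n S

/-- Part GT (about 100 lines; theorem gt (h1 : S_LIN) (h2 : S_REG) : S_GT).  Tensor products of good
rings are good: here `R` is an image of `A ⊗ B`.
Proof: let `S_A`, `S_B` be torsion-free PI rings with images `A`, `B`; `S = S_A ⊗[ℤ] S_B`
(non-unital ring, torsion-free since flat); REG for `S`, and `pi_of_mi`
(Pool/Agent/Helper41/TF/MAT.lean). -/
def S_GT : Prop :=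
  ∀ (A B R : Type) [NonUnitalRing A] [NonUnitalRing B] [NonUnitalRing R]
    (β : A →+ B →+ R), Good A → Good B →
    (∀ a b a' b', β a b * β a' b' = β (a * a') (b * b')) →
    (∀ r : R, r ∈ AddSubgroup.closure {r | ∃ a b, r = β a b}) → Good R

/-- Part AML (about 130 lines, Amitsur and Levitzki).  Nilpotent submodules `M` of an ideal with a
multilinear identity: `M ^ (d + 1)` lies in a nilpotent ideal.
Proof: show for `k ≥ d + 1`: if `M ^ (k + 1)` lies in a nilpotent ideal `J` then `M ^ k` lies in a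
nilpotent ideal.  `U i = M ^ (k - i) * I * M ^ i` (`i = 0, …, d`): `U j * U i ≤ J` for `j > i`, so
`U 0 * ⋯ * U d ≤ J` by the identity; so `(M ^ k * I) ^ (d + 1) * M ^ k ≤ J` and
`⊤ * M ^ k * ⊤ ⊔ J` is nilpotent. -/
def S_AML : Prop :=
  ∀ (A : Type) [Ring A] (I : Submodule ℤ A), ⊤ * I ≤ I → I * ⊤ ≤ I →
    ∀ (d : ℕ) (a : Equiv.Perm (Fin (d + 1)) → ℤ), a 1 = 1 →
      (∀ x : Fin (d + 1) → A, (∀ i, x i ∈ I) →
        ∑ σ, a σ • (List.ofFn (fun i => x (σ i))).prod = 0) →
      ∀ M : Submodule ℤ A, M ≤ I → (∃ m, M ^ m = ⊥) →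
        ∃ J : Submodule ℤ A, ⊤ * J ≤ J ∧ J * ⊤ ≤ J ∧ (∃ k, J ^ k = ⊥) ∧ M ^ (d + 1) ≤ J

/-- Part LNR (about 100 lines).  The locally nilpotent radical.
Proof: `L` = the supremum of all locally nilpotent ideals.  If `J₁`, `J₂` are locally nilpotent
ideals and `M ≤ J₁ ⊔ J₂` is finitely generated, `M ≤ G ⊔ J₂` with `G ≤ J₁` finitely generated,
so `M ^ m ≤ G ^ m ⊔ J₂ = J₂` for some `m`, and `M ^ m` is finitely generated. -/
def S_LNR : Prop :=
  ∀ (A : Type) [Ring A], ∃ L : Submodule ℤ A, ⊤ * L ≤ L ∧ L * ⊤ ≤ L ∧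
    (∀ M : Submodule ℤ A, M.FG → M ≤ L → ∃ m, M ^ m = ⊥) ∧
    ∀ a : A, (∀ b, a * b * a ∈ L) → a ∈ L

end Pool.TF48
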