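import Pool.Agent.Helper48.TF.WED

/-!
# Good rings are closed under varieties; reduction of torsion to the quotients `R / n R`
-/

set_option autoImplicit false

namespace Pool.TF48

lemma ev_congr {X R : Type} [NonUnitalRing R] (a : FA X) :
    ∃ F : Finset X, ∀ r r' : X → R, (∀ x ∈ F, r x = r' x) → ev r a = ev r' a := by
  classical
  induction a using fa_induct with
  | hgen x =>
    refine ⟨{x}, fun r r' h => ?_⟩
    rw [ev_gen, ev_gen, h x (Finset.mem_singleton_self x)]
  | hone => exact ⟨∅, fun r r' _ => by rw [map_one, map_one]⟩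
  | hzero => exact ⟨∅, fun r r' _ => by rw [map_zero, map_zero]⟩
  | hadd a b ha hb =>
    obtain ⟨F, hF⟩ := ha
    obtain ⟨G, hG⟩ := hb
    refine ⟨F ∪ G, fun r r' h => ?_⟩
    rw [map_add, map_add, hF r r' (fun x hx => h x (Finset.mem_union_left _ hx)),
      hG r r' (fun x hx => h x (Finset.mem_union_right _ hx))]
  | hneg a ha =>
    obtain ⟨F, hF⟩ := ha
    refine ⟨F, fun r r' h => ?_⟩
    rw [map_neg, map_neg, hF r r' h]
  | hmul a b ha hb =>
    obtain ⟨F, hF⟩ := ha
    obtain ⟨G, hG⟩ := hb
    refine ⟨F ∪ G, fun r r' h => ?_⟩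
    rw [map_mul, map_mul, hF r r' (fun x hx => h x (Finset.mem_union_left _ hx)),
      hG r r' (fun x hx => h x (Finset.mem_union_right _ hx))]

lemma ev_ren {X Y R : Type} [NonUnitalRing R] (g : X → Y) (t : Y → R) (a : FA X) :
    ev t (lft (fun x => gen (g x)) a) = ev (fun x => t (g x)) a := by
  unfold ev
  rw [lft_lft]
  congr 2
  funext x
  rw [lft_gen]

/-- a ring which satisfies all the identities of a good ring is good -/
theorem good_var {R R' : Type} [NonUnitalRing R] [NonUnitalRing R'] (h : Good R)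
    (hid : ∀ f : FA ℕ, (∀ r : ℕ → R, ev r f = 0) → ∀ r : ℕ → R', ev r f = 0) : Good R' := by
  classical
  obtain ⟨S, _, ⟨f, hf1, hf2, hf3⟩, hT, φ, hφ⟩ := h
  let K : AddSubgroup (FA R') :=
    { carrier := {a | ∀ s : R' → S, ev s a = 0}
      add_mem' := by
        intro a b ha hb s
        rw [map_add, ha s, hb s, add_zero]
      zero_mem' := fun s => map_zero _
      neg_mem' := by
        intro a ha s
        rw [map_neg, ha s, neg_zero] }
  have hKmem : ∀ a, a ∈ K ↔ ∀ s : R' → S, ev s a = 0 := fun _ => Iff.rfl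
  apply good_of_nice K
  · refine ⟨?_, ?_, ?_, f, hf1, hf2, ?_⟩
    · intro a ha b
      constructor
      · intro s
        rw [map_mul, ha s, zero_mul]
      · intro s
        rw [map_mul, ha s, mul_zero]
    · intro a ha
      rw [← fst_ev (fun _ : R' => (0 : S)), ha]; rfl
    · intro m a hm ha s
      have h := ha s
      rw [map_zsmul] at h
      have h1 : m • (ev s a).fst = 0 := congrArg (fun x : Unitization ℤ S => x.fst) h
      have h2 : m • (ev s a).snd = 0 := congrArg (fun x : Unitization ℤ S => x.snd) h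
      ext
      · rw [smul_eq_mul] at h1
        exact (mul_eq_zero.1 h1).resolve_left hm
      · have h3 : m.natAbs • (ev s a).snd = 0 := by
          rcases Int.natAbs_eq m with h | h
          · rw [h, natCast_zsmul] at h2; exact h2
          · rw [h, neg_smul, natCast_zsmul, neg_eq_zero] at h2; exact h2
        exact hT _ _ (Int.natAbs_ne_zero.2 hm) h3
    · intro a ha s
      have h1 : ev s (lft a f) = lft (fun n => ev s (a n)) f := by
        unfold ev
        rw [lft_lft]
      rw [h1]
      have : (fun n => ev s (a n)) = fun n => (((ev s (a n)).snd : S) : Unitization ℤ S) := by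
        funext n
        exact eq_inr ((fst_ev s (a n)).trans (ha n))
      rw [this]
      exact hf3 _
  · intro a ha
    obtain ⟨F, hF⟩ := ev_congr (R := R') a
    obtain ⟨e⟩ : Nonempty (F ≃ Fin F.card) := ⟨F.equivFin⟩
    let g : R' → ℕ := fun x => if hx : x ∈ F then (e ⟨x, hx⟩ : ℕ) else 0
    let t : ℕ → R' := fun n => if hn : n < F.card then ((e.symm ⟨n, hn⟩ : F) : R') else 0
    have hgt : ∀ x ∈ F, t (g x) = x := by
      intro x hx
      have h1 : g x = (e ⟨x, hx⟩ : ℕ) := dif_pos hx
      rw [h1]
      have h2 : t (e ⟨x, hx⟩ : ℕ) = ((e.symm ⟨(e ⟨x, hx⟩ : ℕ), (e ⟨x, hx⟩).2⟩ : F) : R') :=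
        dif_pos _
      rw [h2]
      simp
    have h1 : ∀ r : ℕ → R', ev r (lft (fun x => gen (g x)) a) = 0 := by
      apply hid
      intro r
      choose s hs using fun n => hφ (r n)
      have h2 : ev s (lft (fun x => gen (g x)) a) = 0 := by
        rw [ev_ren]
        exact ha _
      have h3 := mapU_ev φ s (lft (fun x => gen (g x)) a)
      rw [h2, map_zero] at h3
      have h4 : (fun n => φ (s n)) = r := funext hs
      rw [h4] at h3
      exact h3.symm
    have h2 := h1 t
    rw [ev_ren] at h2
    rw [← h2]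
    exact hF _ _ fun x hx => (hgt x hx).symm

/-- torsion elements -/
def torCon (R : Type) [NonUnitalRing R] : RingCon R where
  r a b := ∃ m : ℕ, m ≠ 0 ∧ m • (a - b) = 0
  iseqv := by
    refine ⟨fun a => ⟨1, one_ne_zero, by simp⟩, ?_, ?_⟩
    · rintro a b ⟨m, hm, h⟩
      refine ⟨m, hm, ?_⟩
      have : b - a = -(a - b) := by abel
      rw [this, smul_neg, h, neg_zero]
    · rintro a b c ⟨m, hm, h⟩ ⟨n, hn, h'⟩
      refine ⟨m * n, mul_ne_zero hm hn, ?_⟩
      have : a - c = (a - b) + (b - c) := by abel
      rw [this, smul_add, mul_comm m n, mul_smul, h, smul_zero, mul_comm n m, mul_smul, h',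
        smul_zero, add_zero]
  mul' := by
    rintro a b c d ⟨m, hm, h⟩ ⟨n, hn, h'⟩
    refine ⟨m * n, mul_ne_zero hm hn, ?_⟩
    have : a * c - b * d = (a - b) * c + b * (c - d) := by
      rw [sub_mul, mul_sub]; abel
    rw [this, smul_add, mul_comm m n, mul_smul, ← smul_mul_assoc m, h, zero_mul, smul_zero,
      mul_comm n m, mul_smul, ← mul_smul_comm n, h', mul_zero, smul_zero, add_zero]
  add' := by
    rintro a b c d ⟨m, hm, h⟩ ⟨n, hn, h'⟩
    refine ⟨m * n, mul_ne_zero hm hn, ?_⟩
    have : a + c - (b + d) = (a - b) + (c - d) := by abel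
    rw [this, smul_add, mul_comm m n, mul_smul, h, smul_zero, mul_comm n m, mul_smul, h',
      smul_zero, add_zero]

lemma prod_smul_zero {R A : Type} [NonUnitalRing R] [Ring A] (κ : R →ₙ+* A) (n : ℕ) :
    ∀ (k : ℕ) (u : R) (a c : Fin k → R), (∀ i, a i = n • c i) → n ^ k • u = 0 →
    κ u * (List.ofFn (fun i => κ (a i))).prod = 0 := by
  intro k
  induction k with
  | zero =>
    intro u a c _ hu
    rw [pow_zero, one_smul] at hu
    rw [hu, map_zero, zero_mul]
  | succ k ih =>
    intro u a c ha hu
    rw [List.ofFn_succ, List.prod_cons, ← mul_assoc, ← map_mul]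
    apply ih _ _ (fun i => c i.succ) (fun i => ha i.succ)
    rw [ha 0, mul_smul_comm, smul_smul, ← pow_succ, ← smul_mul_assoc, hu, zero_mul]

lemma perm2 (R A B : Type) [NonUnitalRing R] [NonUnitalRing A] [NonUnitalRing B] (hA : Good A)
    (hB : Good B) (πA : R →ₙ+* A) (πB : R →ₙ+* B) (k : ℕ)
    (h : ∀ u, πA u = 0 → ∀ a : Fin k → R, (∀ i, πB (a i) = 0) →
      (u : Unitization ℤ R) * (List.ofFn (fun i => (a i : Unitization ℤ R))).prod = 0) :
    Good R := by
  obtain ⟨IA, hIA, hIA0⟩ := nice_of_good hA (fun r : R => πA r)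
  obtain ⟨IB, hIB, hIB0⟩ := nice_of_good hB (fun r : R => πB r)
  let I : Fin (k + 1) → AddSubgroup (FA R) := Fin.cons IA (fun _ => IB)
  have hI0 : I 0 = IA := rfl
  have hIs : ∀ j : Fin k, I j.succ = IB := fun _ => rfl
  have hI : ∀ i, Nice (I i) := by
    intro i
    refine Fin.cases ?_ (fun j => ?_) i
    · rw [hI0]; exact hIA
    · rw [hIs]; exact hIB
  apply good_of_nice (mulL k I) (nice_mulL k I hI)
  have key := mulL_zero k I (ev (fun r : R => r)).toAddMonoidHom (by
    intro a ha
    change ev (fun r : R => r) (List.ofFn a).prod = 0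
    rw [map_list_prod, List.map_ofFn]
    have h1 : (⇑(ev (fun r : R => r)) ∘ a) =
        fun i => (((ev (fun r : R => r) (a i)).snd : R) : Unitization ℤ R) := by
      funext i
      exact eq_inr ((fst_ev (fun r : R => r) (a i)).trans ((hI i).2.1 _ (ha i)))
    rw [h1, List.ofFn_succ, List.prod_cons]
    apply h
    · have h2 := hIA0 (a 0) (ha 0)
      rw [← mapU_ev πA (fun r : R => r)] at h2
      exact congrArg (fun x : Unitization ℤ A => x.snd) h2
    · intro i
      have h2 := hIB0 (a i.succ) (ha i.succ)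
      rw [← mapU_ev πB (fun r : R => r)] at h2
      exact congrArg (fun x : Unitization ℤ B => x.snd) h2)
  exact key

/-- the image of `R` in the product of the quotients -/
def prodHom (R : Type) [NonUnitalRing R] (I : Type) (n : I → ℕ) :
    R →ₙ+* (∀ i, (modCon R (n i)).Quotient) where
  toFun r i := mkCon (modCon R (n i)) r
  map_zero' := rfl
  map_add' _ _ := rfl
  map_mul' _ _ := rfl

lemma pi_pi {S : Type} [NonUnitalRing S] (I : Type) (h : PI S) : PI (I → S) := by
  obtain ⟨f, hf1, hf2, hf3⟩ := h
  refine ⟨f, hf1, hf2, fun r => ?_⟩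
  have hfst : (ev r f).fst = 0 := by rw [fst_ev, hf1]
  rw [eq_inr hfst]
  have : (ev r f).snd = 0 := by
    funext i
    have h1 := mapU_ev (Pi.evalNonUnitalRingHom (fun _ : I => S) i) r f
    rw [eq_inr hfst, mapU_inr] at h1
    rw [hf3] at h1
    have h2 := Unitization.inr_injective (h1.trans (Unitization.inr_zero ℤ).symm)
    exact h2
  rw [this, Unitization.inr_zero]

/-- **Reduction of torsion.** -/
theorem tor_iff (R : Type) [NonUnitalRing R] (hR : PI R) (I : Type) (n : I → ℕ)
    (k : ℕ)
    (ht : ∀ (m : ℕ) (t : R), m ≠ 0 → m • t = 0 →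
      t ∈ AddSubgroup.closure {u : R | ∃ i, n i ^ k • u = 0}) :
    Good R ↔ Good (∀ i, (modCon R (n i)).Quotient) := by
  constructor
  · rintro ⟨S, _, h1, h2, φ, hφ⟩
    refine ⟨I → S, inferInstance, pi_pi I h1, ?_, ?_⟩
    · intro m s hm hs
      funext i
      exact h2 m (s i) hm (congrFun hs i)
    · let ψ : (I → S) →ₙ+* (∀ i, (modCon R (n i)).Quotient) :=
        { toFun := fun s i => mkCon (modCon R (n i)) (φ (s i))
          map_zero' := by
            funext i
            change mkCon (modCon R (n i)) (φ 0) = 0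
            rw [map_zero, map_zero]
          map_add' := by
            intro s t
            funext i
            change mkCon (modCon R (n i)) (φ (s i + t i)) = _
            rw [map_add, map_add]
            rfl
          map_mul' := by
            intro s t
            funext i
            change mkCon (modCon R (n i)) (φ (s i * t i)) = _
            rw [map_mul, map_mul]
            rfl }
      refine ⟨ψ, ?_⟩
      intro x
      choose r hr using fun i => mkCon_surj (modCon R (n i)) (x i)
      choose s hs using fun i => hφ (r i)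
      refine ⟨s, ?_⟩
      funext i
      change mkCon (modCon R (n i)) (φ (s i)) = _
      rw [hs, hr]
  · intro h
    have hT : Good (torCon R).Quotient := by
      apply good_self (pi_of_surj _ (mkCon_surj (torCon R)) hR)
      intro m s hm hs
      obtain ⟨r, rfl⟩ := mkCon_surj (torCon R) s
      rw [← map_nsmul, ← map_zero (mkCon (torCon R)), mkCon_eq] at hs
      rw [← map_zero (mkCon (torCon R)), mkCon_eq]
      obtain ⟨l, hl, h3⟩ := hs
      refine ⟨l * m, mul_ne_zero hl hm, ?_⟩
      rw [sub_zero] at h3 ⊢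
      rw [mul_smul, h3]
    apply perm2 R _ _ hT h (mkCon (torCon R)) (prodHom R I n) k
    intro u hu a ha
    rw [← map_zero (mkCon (torCon R)), mkCon_eq] at hu
    obtain ⟨m, hm, hu⟩ := hu
    rw [sub_zero] at hu
    have hu' := ht m u hm hu
    have ha' : ∀ i j, ∃ c : R, a j = n i • c := by
      intro i j
      have h1 : mkCon (modCon R (n i)) (a j) = 0 := congrFun (ha j) i
      rw [← map_zero (mkCon (modCon R (n i))), mkCon_eq] at h1
      obtain ⟨c, hc⟩ := h1
      exact ⟨c, by rw [← hc, sub_zero]⟩
    change inrH R u * (List.ofFn (fun i => inrH R (a i))).prod = 0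
    clear hu hm
    induction hu' using AddSubgroup.closure_induction with
    | mem x hx =>
      obtain ⟨i, hi⟩ := hx
      choose c hc using ha' i
      exact @prod_smul_zero R (Unitization ℤ R) _ _ (inrH R) (n i) k x a c hc hi
    | zero => rw [map_zero, zero_mul]
    | add x y _ _ hx hy => rw [map_add, add_mul, hx, hy, add_zero]
    | neg x _ hx => rw [map_neg, neg_mul, hx, neg_zero]

end Pool.TF48
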