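import Pool.Agent.Helper48.TF.Defs5
import Pool.Agent.Helper48.TF.VAR

/-!
# Every PI ring satisfies a multilinear identity with a coefficient `1`: assembly
-/

set_option autoImplicit false

namespace Pool.TF48

section aux

variable {Q A : Type} [NonUnitalRing Q] [Ring A] (κ : Q →ₙ+* A)

/-- a semiprime quotient with nil kernel -/
theorem nil_quot_aux (hLNR : S_LNR) (hdec : ∀ b : A, ∃ (n : ℤ) (r : Q), b = n • (1 : A) + κ r) :
    ∃ (Q' : Type) (_ : NonUnitalRing Q') (π : Q →ₙ+* Q'), Function.Surjective π ∧ Semiprime Q' ∧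
      ∀ q, π q = 0 → ∃ n, κ q ^ (n + 1) = 0 := by
  obtain ⟨L, hLl, hLr, hLn, hLs⟩ := hLNR A
  have hLml : ∀ a ∈ L, ∀ b, b * a ∈ L := fun a ha b => hLl (Submodule.mul_mem_mul trivial ha)
  have hLmr : ∀ a ∈ L, ∀ b, a * b ∈ L := fun a ha b => hLr (Submodule.mul_mem_mul ha trivial)
  let L' : AddSubgroup Q := L.toAddSubgroup.comap κ.toAddMonoidHom
  have hL' : ∀ q, q ∈ L' ↔ κ q ∈ L := fun _ => Iff.rfl
  have hid : ∀ a ∈ L', ∀ b, a * b ∈ L' ∧ b * a ∈ L' := by
    intro a ha b
    rw [hL'] at ha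
    rw [hL', hL', map_mul, map_mul]
    exact ⟨hLmr _ ha _, hLml _ ha _⟩
  refine ⟨(idCon L' hid).Quotient, inferInstance, mkCon (idCon L' hid), mkCon_surj _, ?_, ?_⟩
  · intro x hx
    obtain ⟨a, rfl⟩ := mkCon_surj (idCon L' hid) x
    rw [mk_idCon, hL']
    have h1 : ∀ b : Q, κ a * κ b * κ a ∈ L := by
      intro b
      have := hx (mkCon (idCon L' hid) b)
      rw [← map_mul, ← map_mul, mk_idCon, hL', map_mul, map_mul] at this
      exact this
    have h2 : κ a * κ a ∈ L := by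
      apply hLs
      intro b
      obtain ⟨n, r, rfl⟩ := hdec b
      have e1 : κ a * κ a * (n • (1 : A) + κ r) * (κ a * κ a) =
          n • (κ a * κ (a * a) * κ a) + κ a * (κ a * κ r * κ a) * κ a := by
        rw [mul_add, add_mul, mul_smul_comm, smul_mul_assoc, mul_one, map_mul]
        simp only [mul_assoc]
      rw [e1]
      exact L.add_mem (L.smul_mem _ (h1 _)) (hLmr _ (hLml _ (h1 _) _) _)
    apply hLs
    intro b
    obtain ⟨n, r, rfl⟩ := hdec b
    rw [mul_add, add_mul, mul_smul_comm, smul_mul_assoc, mul_one]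
    exact L.add_mem (L.smul_mem _ h2) (h1 _)
  · intro q hq
    rw [mk_idCon, hL'] at hq
    obtain ⟨m, hm⟩ := hLn (Submodule.span ℤ {κ q}) (Submodule.fg_span (Set.finite_singleton _))
      (by rw [Submodule.span_le]; rintro _ rfl; exact hq)
    refine ⟨m, ?_⟩
    have h1 : κ q ^ m ∈ Submodule.span ℤ {κ q} ^ m :=
      Submodule.pow_mem_pow _ (Submodule.mem_span_singleton_self _) m
    rw [hm, Submodule.mem_bot] at h1
    rw [pow_succ, h1, zero_mul]

end aux

lemma unit_dec (R : Type) [NonUnitalRing R] (b : Unitization ℤ R) :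
    ∃ (n : ℤ) (r : R), b = n • (1 : Unitization ℤ R) + inrH R r := by
  let f1 : Unitization ℤ R →+ ℤ :=
    { toFun := fun x => x.fst
      map_zero' := rfl
      map_add' := fun _ _ => rfl }
  let f2 : Unitization ℤ R →+ R :=
    { toFun := fun x => x.snd
      map_zero' := rfl
      map_add' := fun _ _ => rfl }
  refine ⟨b.fst, b.snd, ?_⟩
  have h1 : (b.fst • (1 : Unitization ℤ R)).fst = b.fst := by
    have h := map_zsmul f1 b.fst 1
    refine h.trans ?_
    change b.fst • (1 : ℤ) = b.fst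
    simp
  have h2 : (b.fst • (1 : Unitization ℤ R)).snd = 0 := by
    have h := map_zsmul f2 b.fst 1
    refine h.trans ?_
    change b.fst • (0 : R) = 0
    simp
  ext
  · rw [Unitization.fst_add, h1]; exact (add_zero _).symm
  · rw [Unitization.snd_add, h2]; exact (zero_add _).symm

/-- a semiprime quotient with nil kernel -/
theorem nil_quot (hLNR : S_LNR) (Q : Type) [NonUnitalRing Q] :
    ∃ (Q' : Type) (_ : NonUnitalRing Q') (π : Q →ₙ+* Q'), Function.Surjective π ∧ Semiprime Q' ∧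
      ∀ q, π q = 0 → ∃ n, (q : Unitization ℤ Q) ^ (n + 1) = 0 := by
  have key := @nil_quot_aux Q (Unitization ℤ Q) _ _ (inrH Q) hLNR
  exact key (unit_dec Q)

/-! ### Homogeneous polynomials -/

/-- all words of `f` have length `L` -/
def Hm (L : ℕ) (f : FA ℕ) : Prop := ∀ w, f.coeff w ≠ 0 → (FreeMonoid.toList w).length = L

lemma hm_mul {L M : ℕ} {f g : FA ℕ} (hf : Hm L f) (hg : Hm M g) : Hm (L + M) (f * g) := by
  classical
  intro w hw
  have h1 := MonoidAlgebra.support_coeff_mul_subset f g (Finsupp.mem_support_iff.2 hw)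
  obtain ⟨a, ha, b, hb, rfl⟩ := Finset.mem_mul.1 h1
  rw [FreeMonoid.toList_mul, List.length_append, hf a (Finsupp.mem_support_iff.1 ha),
    hg b (Finsupp.mem_support_iff.1 hb)]

lemma coeff_hm {L : ℕ} {f g : FA ℕ} (hf : Hm L f) (u v : FreeMonoid ℕ)
    (hu : (FreeMonoid.toList u).length = L) :
    (f * g).coeff (u * v) = f.coeff u * g.coeff v := by
  apply MonoidAlgebra.coeff_mul_mul_of_uniqueMul
  intro a b ha hb hab
  have h1 := hf a (Finsupp.mem_support_iff.1 ha)
  have h2 := congrArg FreeMonoid.toList hab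
  rw [FreeMonoid.toList_mul, FreeMonoid.toList_mul] at h2
  obtain ⟨h3, h4⟩ := List.append_inj h2 (by rw [h1, hu])
  exact ⟨FreeMonoid.toList.injective h3, FreeMonoid.toList.injective h4⟩

lemma hm_pow {L : ℕ} {f : FA ℕ} (hf : Hm L f) (u : FreeMonoid ℕ)
    (hu : (FreeMonoid.toList u).length = L) (h1 : f.coeff u = 1) (k : ℕ) :
    Hm (L * (k + 1)) (f ^ (k + 1)) ∧ (f ^ (k + 1)).coeff (u ^ (k + 1)) = 1 ∧
      (FreeMonoid.toList (u ^ (k + 1))).length = L * (k + 1) := by
  induction k with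
  | zero => simpa using ⟨hf, h1, hu⟩
  | succ k ih =>
    obtain ⟨ih1, ih2, ih3⟩ := ih
    refine ⟨?_, ?_, ?_⟩
    · rw [pow_succ, Nat.mul_succ]
      exact hm_mul ih1 hf
    · rw [pow_succ, pow_succ u, coeff_hm ih1 _ _ ih3, ih2, h1, mul_one]
    · rw [pow_succ, FreeMonoid.toList_mul, List.length_append, ih3, hu, Nat.mul_succ _ (k + 1)]

/-- the standard polynomial -/
noncomputable def spol (m : ℕ) : FA ℕ :=
  H41.fmi (d := m) (fun σ => ((Equiv.Perm.sign σ : ℤˣ) : ℤ))

lemma ev_spol (m : ℕ) {R : Type} [NonUnitalRing R] (r : ℕ → R) :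
    ev r (spol m) = ∑ σ : Equiv.Perm (Fin (m + 1)), ((Equiv.Perm.sign σ : ℤˣ) : ℤ) •
      (List.ofFn (fun i => (r (σ i : Fin (m + 1)) : Unitization ℤ R))).prod := by
  unfold spol H41.fmi ev
  rw [map_sum]
  apply Finset.sum_congr rfl
  intro σ _
  rw [H41.lft_single, List.map_ofFn]
  rfl

lemma spol_hm (m : ℕ) : Hm (m + 1) (spol m) := by
  classical
  intro w hw
  unfold spol at hw
  rw [H41.coeff_fmi] at hw
  obtain ⟨σ, -, hσ⟩ := Finset.exists_ne_zero_of_sum_ne_zero hw
  have h1 : FreeMonoid.ofList (List.ofFn (fun i => ((σ i : Fin (m + 1)) : ℕ))) = w := by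
    by_contra h
    rw [if_neg h] at hσ
    exact hσ rfl
  rw [← h1]
  simp

lemma spol_coeff (m : ℕ) : (spol m).coeff
    (FreeMonoid.ofList (List.ofFn (fun i : Fin (m + 1) => (i : ℕ)))) = 1 := by
  classical
  unfold spol
  rw [H41.coeff_fmi, Fintype.sum_eq_single (1 : Equiv.Perm (Fin (m + 1)))]
  · simp
  · intro σ hσ
    rw [if_neg]
    intro h
    apply hσ
    have h1 := List.ofFn_injective (FreeMonoid.ofList.injective h)
    ext i
    exact congrFun h1 i

/-- **Amitsur's theorem**: a PI ring satisfies a multilinear identity with a coefficient `1`. -/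
theorem ami (h1 : S_POL) (h2 : S_SPI) (hLNR : S_LNR) (R : Type) [NonUnitalRing R] (hR : PI R) :
    ∃ d, MI d R := by
  obtain ⟨Q', _, π, hπs, hsp, hnil⟩ := nil_quot hLNR ((ℕ → R) → R)
  have hPI : PI Q' := pi_of_surj π hπs (pi_pi (ℕ → R) hR)
  obtain ⟨m, hm⟩ := h2 Q' hPI hsp
  let ξ : ℕ → ((ℕ → R) → R) := fun i r => r i
  have hs0 : ev (fun i => π (ξ i)) (spol m) = 0 := by
    rw [ev_spol]
    exact hm (fun i => π (ξ i))
  rw [← mapU_ev] at hs0
  have hfst : (ev ξ (spol m)).fst = 0 := by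
    rw [fst_ev]
    by_contra h
    have := spol_hm m 1 h
    simp at this
  rw [eq_inr hfst, mapU_inr] at hs0
  have hπ0 : π (ev ξ (spol m)).snd = 0 :=
    Unitization.inr_injective (hs0.trans (Unitization.inr_zero ℤ).symm)
  obtain ⟨k, hk⟩ := hnil _ hπ0
  have hf : ∀ r : ℕ → R, ev r (spol m ^ (k + 1)) = 0 := by
    intro r
    have h3 := mapU_ev (Pi.evalNonUnitalRingHom (fun _ : (ℕ → R) => R) r) ξ (spol m)
    have h4 : (fun i => (Pi.evalNonUnitalRingHom (fun _ : (ℕ → R) => R) r) (ξ i)) = r := by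
      funext i
      rfl
    rw [h4] at h3
    rw [map_pow, ← h3, ← map_pow, eq_inr hfst, hk, map_zero]
  obtain ⟨e1, e2, e3⟩ := hm_pow (spol_hm m) _ (by simp) (spol_coeff m) k
  set W : FreeMonoid ℕ :=
    FreeMonoid.ofList (List.ofFn (fun i : Fin (m + 1) => (i : ℕ))) ^ (k + 1) with hW
  obtain ⟨n, hn⟩ : ∃ n, (m + 1) * (k + 1) = n + 1 :=
    ⟨(m + 1) * (k + 1) - 1, by
      have : 0 < (m + 1) * (k + 1) := Nat.mul_pos (Nat.succ_pos _) (Nat.succ_pos _)
      omega⟩
  rw [hn] at e1 e3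
  let w0 : Fin (n + 1) → ℕ := fun i => (FreeMonoid.toList W).get (Fin.cast e3.symm i)
  have hw0 : List.ofFn w0 = FreeMonoid.toList W := by
    apply List.ext_getElem
    · simp [e3]
    · intro i h3 h4
      rw [List.getElem_ofFn]
      rfl
  have key := h1 R (spol m ^ (k + 1)) hf n w0 (by
    intro w hw r
    have : (spol m ^ (k + 1)).coeff w = 0 := by
      by_contra h
      have := e1 w h
      omega
    rw [this, zero_smul])
  refine ⟨n, fun σ => (spol m ^ (k + 1)).coeff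
    (FreeMonoid.ofList (List.ofFn (fun i => w0 (σ i)))), ?_, key⟩
  have h3 : (List.ofFn (fun i => w0 ((1 : Equiv.Perm (Fin (n + 1))) i))) = List.ofFn w0 := rfl
  change (spol m ^ (k + 1)).coeff (FreeMonoid.ofList
    (List.ofFn (fun i => w0 ((1 : Equiv.Perm (Fin (n + 1))) i)))) = 1
  rw [h3, hw0]
  exact e2

end Pool.TF48
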