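import Pool.Agent.Helper48.TF.Defs4

/-!
# Nilpotent submodules of PI rings (Amitsur, Levitzki)
-/

set_option autoImplicit false

namespace Pool.TF48

namespace AML

variable {A : Type} [Ring A]

lemma prod_le_of (n : ℕ) : ∀ (J : Submodule ℤ A) (U : Fin n → Submodule ℤ A),
    (∀ u : Fin n → A, (∀ i, u i ∈ U i) → (List.ofFn u).prod ∈ J) → (List.ofFn U).prod ≤ J := by
  induction n with
  | zero =>
    intro J U h
    have := h (fun i => i.elim0) (fun i => i.elim0)
    simp only [List.ofFn_zero, List.prod_nil] at this ⊢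
    exact Submodule.one_le.2 this
  | succ n ih =>
    intro J U h
    rw [List.ofFn_succ, List.prod_cons, Submodule.mul_le]
    intro u hu v hv
    have h1 := ih (J.comap (LinearMap.mulLeft ℤ u)) (fun i => U i.succ) (by
      intro w hw
      rw [Submodule.mem_comap, LinearMap.mulLeft_apply]
      have := h (Fin.cons u w) (fun i => Fin.cases hu hw i)
      rw [List.ofFn_succ, List.prod_cons] at this
      simpa using this)
    exact h1 hv

lemma prod_mem (n : ℕ) : ∀ (U : Fin n → Submodule ℤ A) (u : Fin n → A), (∀ i, u i ∈ U i) →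
    (List.ofFn u).prod ∈ (List.ofFn U).prod := by
  induction n with
  | zero =>
    intro U u _
    simp only [List.ofFn_zero, List.prod_nil]
    exact Submodule.one_le.1 le_rfl
  | succ n ih =>
    intro U u h
    rw [List.ofFn_succ, List.prod_cons, List.ofFn_succ, List.prod_cons]
    exact Submodule.mul_mem_mul (h 0) (ih _ _ fun i => h i.succ)

lemma chain_or {ι : Type} [LinearOrder ι] (U : ι → Submodule ℤ A) (J : Submodule ℤ A)
    (hl : ⊤ * J ≤ J) (hr : J * ⊤ ≤ J) (hU : ∀ i j, j < i → U i * U j ≤ J) :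
    ∀ l : List ι, ¬ l.IsChain (· ≤ ·) → (l.map U).prod ≤ J := by
  intro l
  induction l with
  | nil => intro h; exact absurd List.IsChain.nil h
  | cons a l ih =>
    intro h
    cases l with
    | nil => exact absurd (List.IsChain.singleton a) h
    | cons b l =>
      rw [List.isChain_cons_cons, not_and_or] at h
      rw [List.map_cons, List.prod_cons]
      rcases h with h | h
      · rw [List.map_cons, List.prod_cons, ← mul_assoc]
        exact (mul_le_mul' (hU a b (not_le.1 h)) le_top).trans hr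
      · exact (mul_le_mul' le_top (ih h)).trans hl

lemma perm_eq_one (n : ℕ) (σ : Equiv.Perm (Fin n)) (h : (List.ofFn σ).IsChain (· ≤ ·)) :
    σ = 1 := by
  rw [List.isChain_iff_pairwise] at h
  have h1 : Monotone σ := by
    rw [← List.sortedLE_ofFn_iff]
    exact h.sortedLE
  have h2 : StrictMono σ := h1.strictMono_of_injective σ.injective
  have h3 : (h2.orderIsoOfSurjective σ σ.surjective) = OrderIso.refl (Fin n) :=
    Subsingleton.elim _ _
  ext i
  have h4 := DFunLike.congr_fun h3 i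
  have h5 : σ i = i := h4
  rw [h5]
  rfl

lemma sup_pow (P J : Submodule ℤ A) (hl : ⊤ * J ≤ J) (hr : J * ⊤ ≤ J) (n : ℕ) :
    (P ⊔ J) ^ (n + 1) ≤ P ^ (n + 1) ⊔ J := by
  induction n with
  | zero => simp
  | succ n ih =>
    rw [pow_succ (P ⊔ J), pow_succ P]
    refine (mul_le_mul' ih le_rfl).trans ?_
    rw [Submodule.sup_mul, Submodule.mul_sup, Submodule.mul_sup]
    refine sup_le (sup_le le_sup_left ?_) (sup_le ?_ ?_)
    · exact ((mul_le_mul' le_top le_rfl).trans hl).trans le_sup_right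
    · exact ((mul_le_mul' le_rfl le_top).trans hr).trans le_sup_right
    · exact ((mul_le_mul' le_rfl le_top).trans hr).trans le_sup_right

lemma le_top_mul (P : Submodule ℤ A) : P ≤ ⊤ * P := by
  intro x hx
  rw [← one_mul x]
  exact Submodule.mul_mem_mul trivial hx

lemma le_mul_top (P : Submodule ℤ A) : P ≤ P * ⊤ := by
  intro x hx
  rw [← mul_one x]
  exact Submodule.mul_mem_mul hx trivial

lemma low (M I : Submodule ℤ A) (hMI : M * I ≤ I) (k : ℕ) : ∀ j : ℕ, j ≤ k →
    (M ^ k * I) ^ (j + 1) * M ^ j ≤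
      (List.ofFn (fun i : Fin (j + 1) => M ^ (k - (i : ℕ)) * I * M ^ (i : ℕ))).prod := by
  intro j
  induction j with
  | zero => intro _; simp
  | succ j ih =>
    intro hj
    rw [List.ofFn_succ', List.concat_eq_append, List.prod_append, List.prod_singleton]
    simp only [Fin.val_castSucc, Fin.val_last]
    refine le_trans ?_ (mul_le_mul' (ih (by omega)) le_rfl)
    have e1 : M ^ k = M ^ j * (M ^ (k - (j + 1)) * M) := by
      rw [← pow_succ, ← pow_add]
      congr 1
      omega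
    calc (M ^ k * I) ^ (j + 1 + 1) * M ^ (j + 1)
        = (M ^ k * I) ^ (j + 1) * (M ^ k) * I * M ^ (j + 1) := by
          rw [pow_succ (M ^ k * I) (j + 1)]; simp only [mul_assoc]
      _ = (M ^ k * I) ^ (j + 1) * (M ^ j * (M ^ (k - (j + 1)) * M)) * I * M ^ (j + 1) := by
          conv_lhs => rw [show (M ^ k * I) ^ (j + 1) * (M ^ k) * I * M ^ (j + 1) =
            (M ^ k * I) ^ (j + 1) * ((M ^ k) * I * M ^ (j + 1)) by simp only [mul_assoc]]
          rw [show (M ^ k) * I * M ^ (j + 1) = (M ^ j * (M ^ (k - (j + 1)) * M)) * I * M ^ (j + 1)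
            by rw [← e1]]
          simp only [mul_assoc]
      _ = ((M ^ k * I) ^ (j + 1) * M ^ j) * (M ^ (k - (j + 1)) * (M * I) * M ^ (j + 1)) := by
          simp only [mul_assoc]
      _ ≤ _ := by
          refine mul_le_mul' le_rfl (mul_le_mul' (mul_le_mul' le_rfl hMI) le_rfl)

lemma step (I : Submodule ℤ A) (hIl : ⊤ * I ≤ I) (hIr : I * ⊤ ≤ I) (d : ℕ)
    (a : Equiv.Perm (Fin (d + 1)) → ℤ) (ha : a 1 = 1)
    (hx : ∀ x : Fin (d + 1) → A, (∀ i, x i ∈ I) →
      ∑ σ, a σ • (List.ofFn (fun i => x (σ i))).prod = 0)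
    (M : Submodule ℤ A) (hM : M ≤ I) (k : ℕ) (hk : d + 1 ≤ k)
    (h : ∃ J : Submodule ℤ A, ⊤ * J ≤ J ∧ J * ⊤ ≤ J ∧ (∃ k, J ^ k = ⊥) ∧ M ^ (k + 1) ≤ J) :
    ∃ J : Submodule ℤ A, ⊤ * J ≤ J ∧ J * ⊤ ≤ J ∧ (∃ k, J ^ k = ⊥) ∧ M ^ k ≤ J := by
  obtain ⟨J, hl, hr, ⟨e, he⟩, hJ⟩ := h
  have hMI : M * I ≤ I := (mul_le_mul' le_top le_rfl).trans hIl
  have hbig : ∀ n, k + 1 ≤ n → M ^ n ≤ J := by
    intro n hn
    obtain ⟨t, rfl⟩ := Nat.exists_eq_add_of_le hn
    rw [pow_add]
    exact (mul_le_mul' hJ le_top).trans hr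
  set U : Fin (d + 1) → Submodule ℤ A := fun i => M ^ (k - (i : ℕ)) * I * M ^ (i : ℕ) with hU
  have hUI : ∀ i, U i ≤ I := by
    intro i
    refine (mul_le_mul' (mul_le_mul' le_top le_rfl) le_top).trans ?_
    exact (mul_le_mul' hIl le_rfl).trans hIr
  have hUU : ∀ i j, j < i → U i * U j ≤ J := by
    intro i j hij
    have e1 : U i * U j = M ^ (k - (i : ℕ)) * I * (M ^ ((i : ℕ) + (k - (j : ℕ)))) *
        (I * M ^ (j : ℕ)) := by
      rw [hU, pow_add]; simp only [mul_assoc]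
    rw [e1]
    refine (mul_le_mul' (mul_le_mul' le_top (hbig _ ?_)) le_top).trans
      ((mul_le_mul' hl le_rfl).trans hr)
    have := i.2
    have : (j : ℕ) < i := hij
    omega
  have hprod : (List.ofFn U).prod ≤ J := by
    apply prod_le_of
    intro u hu
    have h1 := hx u (fun i => hUI i (hu i))
    rw [← Finset.add_sum_erase _ _ (Finset.mem_univ (1 : Equiv.Perm (Fin (d + 1)))), ha,
      one_zsmul] at h1
    have h2 : (List.ofFn u).prod = - ∑ σ ∈ Finset.univ.erase (1 : Equiv.Perm (Fin (d + 1))),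
        a σ • (List.ofFn (fun i => u (σ i))).prod := by
      rw [← add_eq_zero_iff_eq_neg]
      exact h1
    rw [h2]
    apply Submodule.neg_mem
    apply Submodule.sum_mem
    intro σ hσ
    apply Submodule.smul_mem
    have h3 : (List.ofFn (fun i => U (σ i))).prod ≤ J := by
      have h4 := chain_or U J hl hr hUU (List.ofFn σ) (fun h => (Finset.ne_of_mem_erase hσ)
        (perm_eq_one _ σ h))
      rw [List.map_ofFn] at h4
      exact h4
    exact h3 (prod_mem _ _ _ fun i => hu (σ i))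
  have hkey : (M ^ k * I) ^ (d + 1) * M ^ k ≤ J := by
    have h1 := (low M I hMI k d (by omega)).trans hprod
    obtain ⟨t, ht⟩ := Nat.exists_eq_add_of_le (show d ≤ k by omega)
    have h2 : (M ^ k * I) ^ (d + 1) * M ^ k = ((M ^ k * I) ^ (d + 1) * M ^ d) * M ^ t := by
      rw [mul_assoc, ← pow_add, ← ht]
    rw [h2]
    exact (mul_le_mul' h1 le_top).trans hr
  have hMk : M ^ k ≤ I := by
    obtain ⟨t, rfl⟩ := Nat.exists_eq_add_of_le (show 1 ≤ k by omega)
    rw [pow_add, pow_one]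
    exact (mul_le_mul' hM le_top).trans hIr
  set P : Submodule ℤ A := ⊤ * M ^ k * ⊤ with hP
  have htt : (⊤ : Submodule ℤ A) * ⊤ ≤ ⊤ := le_top
  have hPI : P ≤ I := (mul_le_mul' ((mul_le_mul' le_rfl hMk).trans hIl) le_rfl).trans hIr
  have hPl : ⊤ * P ≤ P := by
    rw [hP, ← mul_assoc, ← mul_assoc]
    exact mul_le_mul' (mul_le_mul' htt le_rfl) le_rfl
  have hPr : P * ⊤ ≤ P := by
    rw [hP, mul_assoc]
    exact mul_le_mul' le_rfl htt
  have hPP : P * P ≤ ⊤ * (M ^ k * I) := by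
    have : ∀ Q : Submodule ℤ A, ⊤ * M ^ k * ⊤ * Q = ⊤ * (M ^ k * (⊤ * Q)) := by
      intro Q
      simp only [mul_assoc]
    have h2 : P * P = ⊤ * (M ^ k * (⊤ * P)) := this P
    rw [h2]
    exact mul_le_mul' le_rfl (mul_le_mul' le_rfl (hPl.trans hPI))
  have hPP2 : ∀ j, (P * P) ^ (j + 1) ≤ ⊤ * (M ^ k * I) ^ (j + 1) := by
    intro j
    induction j with
    | zero => simpa using hPP
    | succ j ih =>
      rw [pow_succ', pow_succ' (M ^ k * I)]
      refine (mul_le_mul' hPP ih).trans ?_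
      have : ⊤ * (M ^ k * I) * (⊤ * (M ^ k * I) ^ (j + 1)) =
          ⊤ * (M ^ k * (I * ⊤) * (M ^ k * I) ^ (j + 1)) := by simp only [mul_assoc]
      rw [this]
      exact mul_le_mul' le_rfl (mul_le_mul' (mul_le_mul' le_rfl hIr) le_rfl)
  have hPd : P ^ (2 * (d + 1) + 1) ≤ J := by
    rw [pow_succ, pow_mul, pow_two]
    refine (mul_le_mul' (hPP2 d) le_rfl).trans ?_
    have h1 : (M ^ k * I) ^ (d + 1) * ⊤ ≤ (M ^ k * I) ^ (d + 1) := by
      rw [pow_succ, mul_assoc, mul_assoc]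
      exact mul_le_mul' le_rfl (mul_le_mul' le_rfl hIr)
    have h2 : ⊤ * (M ^ k * I) ^ (d + 1) * P =
        ⊤ * (((M ^ k * I) ^ (d + 1) * ⊤) * M ^ k) * ⊤ := by
      rw [hP]; simp only [mul_assoc]
    rw [h2]
    exact (mul_le_mul' ((mul_le_mul' le_rfl ((mul_le_mul' h1 le_rfl).trans hkey)).trans hl)
      le_rfl).trans hr
  refine ⟨P ⊔ J, ?_, ?_, ⟨(2 * (d + 1) + 1) * e, ?_⟩, ?_⟩
  · rw [Submodule.mul_sup]; exact sup_le_sup hPl hl
  · rw [Submodule.sup_mul]; exact sup_le_sup hPr hr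
  · have h1 : (P ⊔ J) ^ (2 * (d + 1) + 1) ≤ J := (sup_pow P J hl hr _).trans (sup_le hPd le_rfl)
    rw [pow_mul, eq_bot_iff, ← he]
    exact pow_le_pow_left' h1 e
  · exact ((le_top_mul _).trans (le_mul_top _)).trans le_sup_left

end AML

/-- Part AML. -/
theorem aml : S_AML := by
  intro A _ I hIl hIr d a ha hx M hM hm
  obtain ⟨m, hm⟩ := hm
  have key : ∀ e : ℕ, (∃ J : Submodule ℤ A, ⊤ * J ≤ J ∧ J * ⊤ ≤ J ∧ (∃ k, J ^ k = ⊥) ∧
      M ^ (d + 1 + e) ≤ J) → ∃ J : Submodule ℤ A, ⊤ * J ≤ J ∧ J * ⊤ ≤ J ∧ (∃ k, J ^ k = ⊥) ∧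
      M ^ (d + 1) ≤ J := by
    intro e
    induction e with
    | zero => exact id
    | succ e ih =>
      intro h
      exact ih (AML.step I hIl hIr d a ha hx M hM _ (by omega) h)
  apply key m
  refine ⟨⊥, by simp, by simp, ⟨1, by simp⟩, ?_⟩
  rw [pow_add, hm]
  simp

end Pool.TF48
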