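import Pool.Agent.Helper48.TF.PERM

/-!
# Reduction to `R / p R` for rings with bounded torsion
-/

set_option autoImplicit false

namespace Pool.TF48

/-- the quotient map -/
def mkCon {R : Type} [NonUnitalRing R] (c : RingCon R) : R →ₙ+* c.Quotient where
  toFun r := (r : c.Quotient)
  map_mul' _ _ := rfl
  map_zero' := rfl
  map_add' _ _ := rfl

lemma mkCon_surj {R : Type} [NonUnitalRing R] (c : RingCon R) :
    Function.Surjective (mkCon c) := by
  intro x
  induction x using Quotient.inductionOn with
  | _ r => exact ⟨r, rfl⟩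

lemma mkCon_eq {R : Type} [NonUnitalRing R] (c : RingCon R) (a b : R) :
    mkCon c a = mkCon c b ↔ c a b := RingCon.eq c

lemma good_self {S : Type} [NonUnitalRing S] (h : PI S) (h' : TorsionFree S) : Good S :=
  ⟨S, inferInstance, h, h', NonUnitalRingHom.id S, fun x => ⟨x, rfl⟩⟩

lemma pi_of_surj {R R' : Type} [NonUnitalRing R] [NonUnitalRing R'] (π : R →ₙ+* R')
    (hπ : Function.Surjective π) (h : PI R) : PI R' := by
  obtain ⟨f, hf1, hf2, hf3⟩ := h
  refine ⟨f, hf1, hf2, fun r => ?_⟩
  choose s hs using fun n => hπ (r n)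
  have h1 := mapU_ev π s f
  rw [hf3 s, map_zero] at h1
  have h2 : (fun n => π (s n)) = r := funext hs
  rw [h2] at h1
  exact h1.symm

/-- the congruence modulo the elements killed by `m` -/
def annCon (R : Type) [NonUnitalRing R] (m : ℕ) : RingCon R where
  r a b := m • (a - b) = 0
  iseqv := by
    refine ⟨fun a => by simp, ?_, ?_⟩
    · intro a b h
      have : b - a = -(a - b) := by abel
      rw [this, smul_neg, h, neg_zero]
    · intro a b c h h'
      have : a - c = (a - b) + (b - c) := by abel
      rw [this, smul_add, h, h', add_zero]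
  mul' := by
    intro a b c d h h'
    have : a * c - b * d = (a - b) * c + b * (c - d) := by
      rw [sub_mul, mul_sub]; abel
    rw [this, smul_add, ← smul_mul_assoc, h, zero_mul, ← mul_smul_comm, h', mul_zero, add_zero]
  add' := by
    intro a b c d h h'
    have : a + c - (b + d) = (a - b) + (c - d) := by abel
    rw [this, smul_add, h, h', add_zero]

lemma prod_smul {A : Type} [Ring A] (L : List ℕ) (b : Fin L.length → A)
    (h : ∀ i, ∃ c, b i = (L.get i) • c) : ∃ c, (List.ofFn b).prod = L.prod • c := by
  induction L with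
  | nil => exact ⟨1, by simp⟩
  | cons p L ih =>
    obtain ⟨c, hc⟩ := ih (fun i => b i.succ) (fun i => h i.succ)
    obtain ⟨c', hc'⟩ := h 0
    refine ⟨c' * c, ?_⟩
    have h1 : (List.ofFn b).prod = b 0 * (List.ofFn (fun i : Fin L.length => b i.succ)).prod := by
      have : List.ofFn b = b 0 :: List.ofFn (fun i : Fin L.length => b i.succ) :=
        List.ofFn_succ
      rw [this, List.prod_cons]
    rw [h1, hc, hc', List.prod_cons]
    change p • c' * L.prod • c = _
    rw [smul_mul_smul_comm]

/-- Part BT. -/
theorem bt (hperm : S_PERM) : S_BT := by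
  intro R _ m hm hPI htor hp
  set L := m.primeFactorsList with hL
  have hLprod : L.prod = m := Nat.prod_primeFactorsList hm
  let c : Fin (L.length + 1) → RingCon R :=
    fun i => Fin.cases (annCon R m) (fun j => modCon R (L.get j)) i
  apply hperm R L.length (fun i => (c i).Quotient) (fun i => mkCon (c i))
  · intro i
    refine Fin.cases ?_ ?_ i
    · change Good (annCon R m).Quotient
      apply good_self (pi_of_surj _ (mkCon_surj (annCon R m)) hPI)
      intro k s hk hs
      obtain ⟨r, rfl⟩ := mkCon_surj (annCon R m) s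
      rw [← map_nsmul, ← map_zero (mkCon (annCon R m)), mkCon_eq] at hs
      rw [← map_zero (mkCon (annCon R m)), mkCon_eq]
      have h1 : m • (k • r - 0) = 0 := hs
      change m • (r - 0) = 0
      rw [sub_zero] at h1 ⊢
      rw [smul_smul] at h1
      exact htor (m * k) r (Nat.mul_ne_zero hm hk) h1
    · intro j
      have hj : L.get j ∈ L := List.get_mem L j
      exact hp _ (Nat.prime_of_mem_primeFactorsList hj) (Nat.dvd_of_mem_primeFactorsList hj)
  · intro a ha
    have h0 : m • a 0 = 0 := by
      have := ha 0
      rw [← map_zero (mkCon (c 0)), mkCon_eq] at this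
      have h1 : m • (a 0 - 0) = 0 := this
      rwa [sub_zero] at h1
    have hs : ∀ i : Fin L.length, ∃ d : Unitization ℤ R,
        ((a i.succ : R) : Unitization ℤ R) = (L.get i) • d := by
      intro i
      have := ha i.succ
      rw [← map_zero (mkCon (c i.succ)), mkCon_eq] at this
      obtain ⟨d, hd⟩ : ∃ d : R, a i.succ - 0 = L.get i • d := this
      rw [sub_zero] at hd
      refine ⟨(d : Unitization ℤ R), ?_⟩
      rw [hd, Unitization.inr_smul]
    obtain ⟨d, hd⟩ := prod_smul L (fun i => ((a i.succ : R) : Unitization ℤ R)) hs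
    rw [List.ofFn_succ, List.prod_cons, hd, hLprod, mul_smul_comm, ← smul_mul_assoc,
      ← Unitization.inr_smul, h0, Unitization.inr_zero, zero_mul]

end Pool.TF48
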