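import Pool.Agent.Helper48.TF.Defs

/-!
# LIE3: statements of the three subparts
-/

set_option autoImplicit false

namespace Pool.TF48

/-- Part LG (about 60 lines).  If commutators of generators are central and
`[a,b][c,d] + [a,c][b,d] = 0` for generators, then all commutators are central.
Proof: every `v` has a finite family `p : X →₀ Q` with `[v, r a] = ∑ x, p x * [r x, r a]` for all
`a` (closure induction; products: `v₁ p₂ x + p₁ x v₂`).  So `[v₁, r d] [v₂, r a] + [v₁, r a] [v₂, r d] = 0`
(from the relation), and `[[v, r a], r d] = 0` for all `v` by closure induction.  So `[v, r a]` is central for all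
`v`, and `[[u, v], r d] = [[u, r d], v] + [u, [v, r d]] = 0`. -/
def S_LG : Prop :=
  ∀ (Q : Type) [Ring Q] (X : Type) (r : X → Q), Subring.closure (Set.range r) = ⊤ →
    (∀ a b (q : Q), (r a * r b - r b * r a) * q = q * (r a * r b - r b * r a)) →
    (∀ a b c d, (r a * r b - r b * r a) * (r c * r d - r d * r c) +
      (r a * r c - r c * r a) * (r b * r d - r d * r b) = 0) →
    ∀ x y z : Q, (x * y - y * x) * z = z * (x * y - y * x)

/-- the ordered monomial `∏ r i ^ α i` (increasing order of `i`) -/
noncomputable def om {U X : Type} [Ring U] [LinearOrder X] (r : X → U) (α : X →₀ ℕ) : U :=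
  (((Finsupp.toMultiset α).sort (· ≤ ·)).map r).prod

/-- Part LO (about 80 lines).  Multiplication of an ordered monomial by a generator, when commutators
of generators are central.  Proof: for sorted lists `l`, by induction:
`r j * (l.map r).prod = ((l.orderedInsert (· ≤ ·) j).map r).prod +
  ∑ over the entries i < j of l: ((l.erase i).map r).prod * [r j, r i]`. -/
def S_LO : Prop :=
  ∀ (U X : Type) [Ring U] [LinearOrder X] (r : X → U),
    (∀ a b (q : U), (r a * r b - r b * r a) * q = q * (r a * r b - r b * r a)) →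
    ∀ (α : X →₀ ℕ) (j : X), r j * om r α = om r (α + Finsupp.single j 1) +
      α.sum (fun i k => if i < j then k • (om r (α - Finsupp.single i 1) *
        (r j * r i - r i * r j)) else 0)

/-- Part LE (about 150 lines).  The universal commutative ring: the even part of the exterior algebra.
Proof: `Λ = ExteriorAlgebra ℤ (X →₀ ℤ)`, `Γ` = the subring generated by the `ι a * ι b`
(commutative), `c a b = ι a * ι b`; torsion-free as `Λ` is free (Mathlib
`LinearAlgebra/ExteriorAlgebra/Basis`).  For `U` and `r`: `ρ : (X →₀ ℤ) → U` linear with `ρ x = r x`;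
`V₁` = the additive maps `φ : (X →₀ ℤ) → U` with `[ρ x, ρ m] φ m = 0` for all `x, m`; `V = U × V₁`;
`ε m (u, φ) = (φ m, x ↦ [ρ x, ρ m] u)`.  Then `ε m * ε m = 0` (in `U`: `[a, b][b, d] = 0` since
`[a, b] b = [a b, b]` is central), so `ε` extends to `Λ → End V`; `γ g = (ε g (1, 0)).1`.  (To
avoid problems with the two `ℤ`-module structures, do it over a commutative ring `k` and a
`k`-algebra `U`, and put `k = ℤ` at the end.) -/
def S_LE : Prop :=
  ∀ (X : Type), ∃ (Γ : Type) (_ : CommRing Γ) (c : X → X → Γ),
    (∀ (n : ℤ) (g : Γ), n ≠ 0 → n • g = 0 → g = 0) ∧ (∀ a, c a a = 0) ∧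
    (∀ a b, c a b = - c b a) ∧ (∀ a b a' b', c a b * c a' b' + c a a' * c b b' = 0) ∧
    ∀ (U : Type) [Ring U] (r : X → U), (∀ x y z : U, (x * y - y * x) * z = z * (x * y - y * x)) →
      ∃ γ : Γ →+ U, γ 1 = 1 ∧ ∀ a b g, γ (c a b * g) = (r a * r b - r b * r a) * γ g

end Pool.TF48
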