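import Pool.Agent.Helper48.TF.Defs

/-!
# Matrices over rings with `[x, y, z] = 0`
-/

set_option autoImplicit false

namespace Pool.TF48

/-- Part MPI (about 200 lines).  If `S` satisfies `[x, y, z] = 0`, then the `n × n` matrices over `S`
satisfy a polynomial identity with a coefficient `1`, namely `St(x₀, …, x_{N-1}) ^ k`, where `St` is
the standard polynomial of degree `N = n ^ 2 + 1` and `2 k > N n ^ 2`.
Proof: let `S'` be the subring generated by the `N n ^ 2 = g` entries of the matrices `x₀, …, x_{N-1}`
and `J` the ideal of `S'` generated by the commutators of these entries; `S' / J` is commutative,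
so the entries of `St(x)` are in `J` (see MAT: an alternating map on a module generated by `n ^ 2`
elements; the matrices over `S' / J` are such a module).  `J ^ k = 0`: commutators are central, and
`[a, b] [b, d] = 0` (`[a, b] b = [a b, b]` is central), `[a, b] [c, d] = - [a, c] [b, d]`, so a product of `k`
commutators of entries is zero if two of the `2 k` arguments are equal.  The coefficient of the word
`(x₀ ⋯ x_{N-1}) ^ k` in `St ^ k` is `1`. -/
def S_MPI : Prop :=
  ∀ (S : Type) [Ring S], (∀ x y z : S, (x * y - y * x) * z = z * (x * y - y * x)) →
    ∀ n : ℕ, PI (Matrix (Fin n) (Fin n) S)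

end Pool.TF48
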