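import Pool.Agent.Helper48.TF.PERM
import Pool.Agent.Helper48.TF.Defs2

/-!
# Rings with `[x, y, z] = 0`: assembly
-/

set_option autoImplicit false

namespace Pool.TF48

open MvPolynomial

lemma fa_induct {X : Type} {p : FA X → Prop} (hgen : ∀ x, p (gen x)) (hone : p 1) (hzero : p 0)
    (hadd : ∀ a b, p a → p b → p (a + b)) (hneg : ∀ a, p a → p (-a))
    (hmul : ∀ a b, p a → p b → p (a * b)) (f : FA X) : p f := by
  have hw : ∀ w : FreeMonoid X, p (MonoidAlgebra.single w 1) := by
    intro w
    induction w using FreeMonoid.recOn with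
    | one => exact hone
    | of_mul x w ih =>
      have : (MonoidAlgebra.single (FreeMonoid.of x * w) (1 : ℤ) : FA X) =
          gen x * MonoidAlgebra.single w 1 := by
        unfold gen
        rw [MonoidAlgebra.single_mul_single, mul_one]
      rw [this]
      exact hmul _ _ (hgen x) ih
  have hn : ∀ (n : ℕ) (a : FA X), p a → p (n • a) := by
    intro n a ha
    induction n with
    | zero => rw [zero_smul]; exact hzero
    | succ n ih => rw [succ_nsmul]; exact hadd _ _ ih ha
  induction f using MonoidAlgebra.induction_linear with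
  | zero => exact hzero
  | add a b ha hb => exact hadd a b ha hb
  | single w n =>
    have : (MonoidAlgebra.single w n : FA X) = n • MonoidAlgebra.single w 1 := by
      rw [MonoidAlgebra.smul_single]; simp
    rw [this]
    rcases Int.natAbs_eq n with h | h
    · rw [h, natCast_zsmul]; exact hn _ _ (hw w)
    · rw [h, neg_smul, natCast_zsmul]; exact hneg _ (hn _ _ (hw w))

section model

variable {X Γ : Type} [LinearOrder X] [CommRing Γ] (c : X → X → Γ)

/-- the derivation `D_j` with `D_j x_i = c j i` for `i < j` -/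
noncomputable def Dr (j : X) : Derivation Γ (MvPolynomial X Γ) (MvPolynomial X Γ) :=
  mkDerivation Γ (fun i => if i < j then C (c j i) else 0)

/-- the operator `x_j + D_j` -/
noncomputable def Lo (j : X) : Module.End Γ (MvPolynomial X Γ) :=
  LinearMap.mulLeft Γ (MvPolynomial.X j) + (Dr c j : MvPolynomial X Γ →ₗ[Γ] MvPolynomial X Γ)

lemma Lo_apply (j : X) (n : MvPolynomial X Γ) : Lo c j n = MvPolynomial.X j * n + Dr c j n := rfl

lemma Dr_comm (a b : X) (n : MvPolynomial X Γ) : Dr c a (Dr c b n) = Dr c b (Dr c a n) := by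
  have h : ⁅Dr c a, Dr c b⁆ = 0 := by
    apply MvPolynomial.derivation_ext
    intro i
    rw [Derivation.commutator_apply]
    have h1 : ∀ j, Dr c j (MvPolynomial.X i) = if i < j then C (c j i) else 0 := by
      intro j
      exact mkDerivation_X _ _ _
    rw [h1, h1]
    have h2 : ∀ (a b : X), Dr c a (if i < b then C (c b i) else 0) = 0 := by
      intro a b
      split_ifs
      · exact MvPolynomial.derivation_C _ _
      · exact map_zero _
    rw [h2, h2, sub_zero]
    rfl
  have := congrArg (fun D : Derivation Γ (MvPolynomial X Γ) (MvPolynomial X Γ) => D n) h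
  simp only [Derivation.commutator_apply] at this
  exact sub_eq_zero.1 this

lemma Lo_comm (h0 : ∀ a, c a a = 0) (h1 : ∀ a b, c a b = - c b a) (a b : X) :
    Lo c a * Lo c b - Lo c b * Lo c a = algebraMap Γ _ (c a b) := by
  apply LinearMap.ext
  intro n
  rw [LinearMap.sub_apply, Module.End.mul_apply, Module.End.mul_apply, Lo_apply, Lo_apply,
    Lo_apply, Lo_apply, map_add, map_add, Derivation.leibniz, Derivation.leibniz, Dr_comm c b a,
    Module.algebraMap_end_apply]
  have h2 : ∀ i j, Dr c j (MvPolynomial.X i) = if i < j then C (c j i) else 0 := by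
    intro i j
    exact mkDerivation_X _ _ _
  rw [h2, h2]
  simp only [smul_eq_mul]
  have h3 : (if b < a then C (c a b) else 0) - (if a < b then C (c b a) else 0) =
      (C (c a b) : MvPolynomial X Γ) := by
    rcases lt_trichotomy a b with h | h | h
    · rw [if_neg (not_lt.2 h.le), if_pos h, h1 a b]; simp
    · subst h
      rw [if_neg (lt_irrefl _), h0]; simp
    · rw [if_pos h, if_neg (not_lt.2 h.le), sub_zero]
  rw [← MvPolynomial.C_mul']
  linear_combination n * h3

/-! ### The intertwiner -/

/-- `X^α g ↦ om r α * γ g` -/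
noncomputable def nu {U : Type} [Ring U] (r : X → U) (γ : Γ →+ U) : MvPolynomial X Γ →+ U :=
  (Finsupp.liftAddHom (fun α : X →₀ ℕ => (AddMonoidHom.mulLeft (om r α)).comp γ)).comp
    (AddMonoidAlgebra.coeffAddEquiv : MvPolynomial X Γ ≃+ ((X →₀ ℕ) →₀ Γ)).toAddMonoidHom

lemma nu_monomial {U : Type} [Ring U] (r : X → U) (γ : Γ →+ U) (α : X →₀ ℕ) (g : Γ) :
    nu r γ (monomial α g) = om r α * γ g := by
  change Finsupp.liftAddHom _ (Finsupp.single α g) = _
  rw [Finsupp.liftAddHom_apply_single]
  rfl

lemma nu_one {U : Type} [Ring U] (r : X → U) (γ : Γ →+ U) (h : γ 1 = 1) :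
    nu r γ (1 : MvPolynomial X Γ) = 1 := by
  have : (1 : MvPolynomial X Γ) = monomial 0 1 := rfl
  rw [this, nu_monomial, h, mul_one]
  simp [om]

lemma nu_Lo (hLO : S_LO) {U : Type} [Ring U] (r : X → U) (γ : Γ →+ U)
    (hU : ∀ x y z : U, (x * y - y * x) * z = z * (x * y - y * x))
    (hγ : ∀ a b g, γ (c a b * g) = (r a * r b - r b * r a) * γ g) (j : X) (n : MvPolynomial X Γ) :
    nu r γ (Lo c j n) = r j * nu r γ n := by
  induction n using MvPolynomial.induction_on' with
  | monomial α g =>
    rw [Lo_apply, map_add, nu_monomial, ← mul_assoc, hLO U X r (fun a b q => hU _ _ _) α j,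
      add_mul]
    congr 1
    · have : (MvPolynomial.X j : MvPolynomial X Γ) * monomial α g =
          monomial (α + Finsupp.single j 1) g := by
        rw [MvPolynomial.X, MvPolynomial.monomial_mul, one_mul, add_comm]
      rw [this, nu_monomial]
    · have h1 : Dr c j (monomial α g) = g • α.sum fun i k =>
          monomial (α - Finsupp.single i 1) (k : Γ) • (if i < j then C (c j i) else 0) :=
        mkDerivation_monomial _ _ _ _
      rw [h1, Finsupp.sum, Finsupp.sum, Finset.smul_sum, map_sum, Finset.sum_mul]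
      apply Finset.sum_congr rfl
      intro i _
      split_ifs with hij
      · have h2 : g • (monomial (α - Finsupp.single i 1) ((α i : ℕ) : Γ) •
            (C (c j i) : MvPolynomial X Γ)) =
            monomial (α - Finsupp.single i 1) (c j i * ((α i : ℕ) • g)) := by
          rw [smul_eq_mul, mul_comm (monomial _ _) (C _), MvPolynomial.C_mul_monomial,
            MvPolynomial.smul_monomial, nsmul_eq_mul, smul_eq_mul]
          congr 1
          ring
        rw [h2, nu_monomial, hγ, map_nsmul, smul_mul_assoc, mul_smul_comm, mul_smul_comm,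
          mul_assoc]
      · rw [smul_zero, smul_zero, map_zero, zero_mul]
  | add p q hp hq => rw [map_add, map_add, map_add, hp, hq, mul_add]

/-- the representation of the free ring -/
noncomputable def Th : FA X →+* Module.End Γ (MvPolynomial X Γ) := lft (Lo c)

lemma nu_Th (hLO : S_LO) {U : Type} [Ring U] (r : X → U) (γ : Γ →+ U)
    (hU : ∀ x y z : U, (x * y - y * x) * z = z * (x * y - y * x))
    (hγ : ∀ a b g, γ (c a b * g) = (r a * r b - r b * r a) * γ g) (f : FA X) :
    ∀ n : MvPolynomial X Γ, nu r γ (Th c f n) = lft r f * nu r γ n := by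
  induction f using fa_induct with
  | hgen x =>
    intro n
    unfold Th
    rw [lft_gen, lft_gen]
    exact nu_Lo c hLO r γ hU hγ x n
  | hone => intro n; rw [map_one, map_one, Module.End.one_apply, one_mul]
  | hzero => intro n; rw [map_zero, map_zero, LinearMap.zero_apply, map_zero, zero_mul]
  | hadd a b ha hb =>
    intro n
    rw [map_add, map_add, LinearMap.add_apply, map_add, ha, hb, add_mul]
  | hneg a ha => intro n; rw [map_neg, map_neg, LinearMap.neg_apply, map_neg, ha, neg_mul]
  | hmul a b ha hb =>
    intro n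
    rw [map_mul, map_mul, Module.End.mul_apply, ha, hb, mul_assoc]

lemma Th_comm (hLG : S_LG) (h0 : ∀ a, c a a = 0) (h1 : ∀ a b, c a b = - c b a)
    (h2 : ∀ a b a' b', c a b * c a' b' + c a a' * c b b' = 0) (f g h : FA X) :
    Th c ((f * g - g * f) * h - h * (f * g - g * f)) = 0 := by
  set Q := Subring.closure (Set.range (Lo c)) with hQ
  let r : X → Q := fun x => ⟨Lo c x, Subring.subset_closure ⟨x, rfl⟩⟩
  have hcl : Subring.closure (Set.range r) = ⊤ := by
    rw [eq_top_iff]
    rintro ⟨q, hq⟩ -
    induction hq using Subring.closure_induction with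
    | mem x hx =>
      obtain ⟨y, rfl⟩ := hx
      exact Subring.subset_closure ⟨y, rfl⟩
    | zero => exact zero_mem _
    | one => exact one_mem _
    | add x y hx hy h1 h2 => exact add_mem h1 h2
    | neg x hx h1 => exact neg_mem h1
    | mul x y hx hy h1 h2 => exact mul_mem h1 h2
  have hc : ∀ a b, ((r a * r b - r b * r a : Q) : Module.End Γ (MvPolynomial X Γ)) =
      algebraMap Γ _ (c a b) := fun a b => Lo_comm c h0 h1 a b
  have key := hLG Q X r hcl
    (by
      intro a b q
      apply Subtype.ext
      change ((r a * r b - r b * r a : Q) : Module.End Γ (MvPolynomial X Γ)) * q =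
        q * ((r a * r b - r b * r a : Q) : Module.End Γ (MvPolynomial X Γ))
      rw [hc]
      exact Algebra.commutes _ _)
    (by
      intro a b a' b'
      apply Subtype.ext
      change ((r a * r b - r b * r a : Q) : Module.End Γ (MvPolynomial X Γ)) *
        ((r a' * r b' - r b' * r a' : Q) : Module.End Γ (MvPolynomial X Γ)) +
        ((r a * r a' - r a' * r a : Q) : Module.End Γ (MvPolynomial X Γ)) *
        ((r b * r b' - r b' * r b : Q) : Module.End Γ (MvPolynomial X Γ)) = 0
      rw [hc, hc, hc, hc, ← map_mul, ← map_mul, ← map_add, h2, map_zero])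
  have hmem : ∀ f : FA X, Th c f ∈ Q := by
    intro f
    induction f using fa_induct with
    | hgen x =>
      unfold Th
      rw [lft_gen]
      exact (r x).2
    | hone => rw [map_one]; exact one_mem _
    | hzero => rw [map_zero]; exact zero_mem _
    | hadd a b ha hb => rw [map_add]; exact add_mem ha hb
    | hneg a ha => rw [map_neg]; exact neg_mem ha
    | hmul a b ha hb => rw [map_mul]; exact mul_mem ha hb
  have h3 := congrArg Subtype.val (key ⟨_, hmem f⟩ ⟨_, hmem g⟩ ⟨_, hmem h⟩)
  rw [map_sub, map_mul, map_mul, map_sub, map_mul, map_mul, sub_eq_zero]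
  exact h3

end model

/-- `[[x₀, x₁], x₂]` -/
noncomputable def f3 : FA ℕ :=
  (gen 0 * gen 1 - gen 1 * gen 0) * gen 2 - gen 2 * (gen 0 * gen 1 - gen 1 * gen 0)

lemma f3_coeff_one : f3.coeff 1 = 0 := by
  rw [← aug_eq, f3]
  have : ∀ n : ℕ, aug (gen n : FA ℕ) = 0 := fun n => lft_gen (fun _ : ℕ => (0 : ℤ)) n
  simp [this]

lemma f3_coeff : f3.coeff (FreeMonoid.ofList [0, 1, 2]) = 1 := by
  have h1 : f3 = MonoidAlgebra.single (FreeMonoid.ofList [0, 1, 2]) 1 -
      MonoidAlgebra.single (FreeMonoid.ofList [1, 0, 2]) 1 -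
      (MonoidAlgebra.single (FreeMonoid.ofList [2, 0, 1]) 1 -
      MonoidAlgebra.single (FreeMonoid.ofList [2, 1, 0]) 1) := by
    unfold f3 gen
    rw [sub_mul, mul_sub]
    simp only [MonoidAlgebra.single_mul_single, mul_one]
    rfl
  have h2 : ∀ l : List ℕ, l ≠ [0, 1, 2] →
      (MonoidAlgebra.single (FreeMonoid.ofList l) (1 : ℤ) : FA ℕ).coeff
        (FreeMonoid.ofList [0, 1, 2]) = 0 := by
    intro l hl
    rw [MonoidAlgebra.coeff_single, Finsupp.single_eq_of_ne]
    intro h
    exact hl (FreeMonoid.ofList.injective h.symm)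
  have h3 : (MonoidAlgebra.single (FreeMonoid.ofList [0, 1, 2]) (1 : ℤ) : FA ℕ).coeff
        (FreeMonoid.ofList [0, 1, 2]) = 1 := by
    rw [MonoidAlgebra.coeff_single, Finsupp.single_eq_same]
  rw [h1]
  have h4 : ∀ a b : FA ℕ, (a - b).coeff (FreeMonoid.ofList [0, 1, 2]) =
      a.coeff (FreeMonoid.ofList [0, 1, 2]) - b.coeff (FreeMonoid.ofList [0, 1, 2]) :=
    fun _ _ => rfl
  rw [h4, h4, h4, h3, h2 _ (by decide), h2 _ (by decide), h2 _ (by decide)]
  norm_num

/-- Part LIE3. -/
theorem lie3 (hLG : S_LG) (hLO : S_LO) (hLE : S_LE) : S_LIE3 := by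
  intro R _ hR
  classical
  let _ : LinearOrder R := linearOrderOfSTO (WellOrderingRel : R → R → Prop)
  obtain ⟨Γ, _, c, htf, h0, h1, h2, huniv⟩ := hLE R
  have hker : ∀ (U : Type) [Ring U] (r : R → U),
      (∀ x y z : U, (x * y - y * x) * z = z * (x * y - y * x)) →
      ∀ f : FA R, Th c f = 0 → lft r f = 0 := by
    intro U _ r hU f hf
    obtain ⟨γ, hγ1, hγ⟩ := huniv U r hU
    have h := nu_Th c hLO r γ hU hγ f 1
    rw [hf, LinearMap.zero_apply, map_zero, nu_one r γ hγ1, mul_one] at h
    exact h.symm
  apply good_of_nice (Th c).toAddMonoidHom.ker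
  · refine ⟨?_, ?_, ?_, f3, f3_coeff_one, ⟨_, f3_coeff⟩, ?_⟩
    · intro a ha b
      have h : Th c a = 0 := ha
      constructor
      · change Th c (a * b) = 0
        rw [map_mul, h, zero_mul]
      · change Th c (b * a) = 0
        rw [map_mul, h, mul_zero]
    · intro a ha
      have h : Th c a = 0 := ha
      rw [← aug_eq]
      exact hker ℤ (fun _ => 0) (fun x y z => by ring) a h
    · intro m a hm ha
      have h : Th c (m • a) = 0 := ha
      change Th c a = 0
      rw [map_zsmul] at h
      apply LinearMap.ext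
      intro n
      have h3 : m • (Th c a n) = 0 := by
        have := congrArg (fun T : Module.End Γ (MvPolynomial R Γ) => T n) h
        exact this
      rw [LinearMap.zero_apply]
      ext α
      have h4 := congrArg (MvPolynomial.coeff α) h3
      rw [MvPolynomial.coeff_zero] at h4 ⊢
      apply htf m _ hm
      rw [← h4]
      exact (map_zsmul (MvPolynomial.coeffAddMonoidHom α : MvPolynomial R Γ →+ Γ) m _).symm
    · intro a _
      change Th c (lft a f3) = 0
      have : lft a f3 = (a 0 * a 1 - a 1 * a 0) * a 2 - a 2 * (a 0 * a 1 - a 1 * a 0) := by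
        unfold f3
        simp only [map_sub, map_mul, lft_gen]
      rw [this]
      exact Th_comm c hLG h0 h1 h2 _ _ _
  · intro f hf
    apply hker (Unitization ℤ R) (fun r => (r : Unitization ℤ R)) _ f hf
    intro x y z
    have hxy : x * y - y * x = ((x.snd * y.snd - y.snd * x.snd : R) : Unitization ℤ R) := by
      ext
      · change x.fst * y.fst - y.fst * x.fst = 0
        ring
      · change (x.fst • y.snd + y.fst • x.snd + x.snd * y.snd) -
          (y.fst • x.snd + x.fst • y.snd + y.snd * x.snd) = _
        simp only [Unitization.snd_inr]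
        abel
    rw [hxy]
    ext
    · change (0 : ℤ) * z.fst = z.fst * 0
      ring
    · change (0 : ℤ) • z.snd + z.fst • (x.snd * y.snd - y.snd * x.snd) +
        (x.snd * y.snd - y.snd * x.snd) * z.snd =
        z.fst • (x.snd * y.snd - y.snd * x.snd) + (0 : ℤ) • z.snd +
        z.snd * (x.snd * y.snd - y.snd * x.snd)
      rw [hR, zero_smul]
      abel

end Pool.TF48
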