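import Pool.Agent.Helper48.TF.BT
import Pool.Agent.Helper48.TF.LIE3
import Pool.Agent.Helper23.TF.LG
import Pool.Agent.Helper23.TF.LO
import Pool.Agent.Helper41.TF.JEN
import Pool.Agent.Helper41.TF.LEV
import Pool.Agent.Helper41.TF.MAT
import Pool.Agent.Helper41.TF.PRIM
import Pool.Agent.Helper71.TF.LE
import Pool.Agent.Helper94.TF.KAP

/-!
# Assembly: PI rings with nilpotent prime radical, Lie nilpotent rings
-/

set_option autoImplicit false

namespace Pool.TF48

/-- an ideal (additive subgroup closed under multiplication) as a congruence -/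
def idCon {R : Type} [NonUnitalRing R] (N : AddSubgroup R)
    (h : ∀ a ∈ N, ∀ b : R, a * b ∈ N ∧ b * a ∈ N) : RingCon R where
  r a b := a - b ∈ N
  iseqv := by
    refine ⟨fun a => by rw [sub_self]; exact N.zero_mem, ?_, ?_⟩
    · intro a b hab
      have : b - a = -(a - b) := by abel
      rw [this]; exact N.neg_mem hab
    · intro a b c hab hbc
      have : a - c = (a - b) + (b - c) := by abel
      rw [this]; exact N.add_mem hab hbc
  mul' := by
    intro a b c d hab hcd
    have : a * c - b * d = (a - b) * c + b * (c - d) := by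
      rw [sub_mul, mul_sub]; abel
    rw [this]; exact N.add_mem (h _ hab c).1 (h _ hcd b).2
  add' := by
    intro a b c d hab hcd
    have : a + c - (b + d) = (a - b) + (c - d) := by abel
    rw [this]; exact N.add_mem hab hcd

lemma mk_idCon {R : Type} [NonUnitalRing R] (N : AddSubgroup R)
    (h : ∀ a ∈ N, ∀ b : R, a * b ∈ N ∧ b * a ∈ N) (a : R) :
    mkCon (idCon N h) a = 0 ↔ a ∈ N := by
  rw [← map_zero (mkCon (idCon N h)), mkCon_eq]
  change a - 0 ∈ N ↔ _
  rw [sub_zero]

lemma mi_surj {d : ℕ} {R R' : Type} [NonUnitalRing R] [NonUnitalRing R'] (π : R →ₙ+* R')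
    (hπ : Function.Surjective π) (h : MI d R) : MI d R' := by
  obtain ⟨a, ha, hx⟩ := h
  refine ⟨a, ha, fun x => ?_⟩
  choose y hy using fun i => hπ (x i)
  have h1 := congrArg (mapU π) (hx y)
  rw [map_zero, map_sum] at h1
  rw [← h1]
  apply Finset.sum_congr rfl
  intro σ _
  rw [map_zsmul]
  congr 1
  have h2 := map_list_prod (mapU π) (List.ofFn (fun i => ((y (σ i) : R) : Unitization ℤ R)))
  rw [List.map_ofFn] at h2
  refine Eq.trans ?_ h2.symm
  congr 2
  funext i
  rw [Function.comp_apply, mapU_inr, hy]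

/-- rings with a multilinear identity and a nilpotent ideal with semiprime quotient -/
theorem good_of_semiprime (R R' : Type) [NonUnitalRing R] [NonUnitalRing R'] (π : R →ₙ+* R')
    (hπ : Function.Surjective π) (d : ℕ) (hR : MI d R) (hs : Semiprime R') (m : ℕ)
    (hm : ∀ a : Fin (m + 1) → R, (∀ i, π (a i) = 0) →
      (List.ofFn (fun i => (a i : Unitization ℤ R))).prod = 0) : Good R := by
  have h1 : Good R' := by
    obtain ⟨n, C, _, i, hi⟩ := Helper94.kap H41.lev H41.prim d R'
      (mi_surj π hπ hR) hs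
    exact H41.mat R' C n i hi
  exact perm R m (fun _ => R') (fun _ => π) (fun _ => h1) hm

/-- Lie nilpotent rings -/
theorem good_of_lie (R : Type) [NonUnitalRing R] (c : ℕ) (hR : ∀ r : ℕ → R, lnc r c = 0) :
    Good R := by
  obtain ⟨m, hm1, hm⟩ := H41.jen R c hR
  set P : Set (AddSubgroup R) := {M | (∀ a ∈ M, ∀ b : R, a * b ∈ M ∧ b * a ∈ M) ∧
    ∀ x y z : R, (x * y - y * x) * z - z * (x * y - y * x) ∈ M} with hP
  set N : AddSubgroup R := sInf P with hN
  have hN1 : ∀ a ∈ N, ∀ b : R, a * b ∈ N ∧ b * a ∈ N := by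
    intro a ha b
    rw [hN, AddSubgroup.mem_sInf] at ha
    rw [hN, AddSubgroup.mem_sInf, AddSubgroup.mem_sInf]
    exact ⟨fun M hM => (hM.1 a (ha M hM) b).1, fun M hM => (hM.1 a (ha M hM) b).2⟩
  have hN2 : ∀ x y z : R, (x * y - y * x) * z - z * (x * y - y * x) ∈ N := by
    intro x y z
    rw [hN, AddSubgroup.mem_sInf]
    exact fun M hM => hM.2 x y z
  have hgood : Good (idCon N hN1).Quotient := by
    apply lie3 Pool.Agent.Helper23.TF.lg Pool.Agent.Helper23.TF.lo H71.le
    intro x y z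
    obtain ⟨x, rfl⟩ := mkCon_surj _ x
    obtain ⟨y, rfl⟩ := mkCon_surj _ y
    obtain ⟨z, rfl⟩ := mkCon_surj _ z
    rw [← sub_eq_zero, ← map_mul, ← map_mul, ← map_sub, ← map_mul, ← map_mul, ← map_sub,
      mk_idCon]
    exact hN2 x y z
  obtain ⟨k, rfl⟩ : ∃ k, m = k + 1 := ⟨m - 1, by omega⟩
  apply perm R k (fun _ => (idCon N hN1).Quotient) (fun _ => mkCon (idCon N hN1)) (fun _ => hgood)
  intro a ha
  exact hm N hN1 (fun M hM1 hM2 => sInf_le ⟨hM1, hM2⟩) a (fun i => (mk_idCon N hN1 _).1 (ha i))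

end Pool.TF48
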