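import Pool.Agent.Helper48.TF.VAR
import Pool.Agent.Helper41.TF.LIN
import Pool.Agent.Helper41.TF.LATY
import Pool.Agent.Helper66.TF.CNT
import Pool.Agent.Helper71.TF.REG
import Pool.Agent.Helper74.TF.GT
import Pool.Agent.Helper52.TF.LNR

/-!
# Assembly, stage 2
-/

set_option autoImplicit false

namespace Pool.TF48

/-- tensor products -/
theorem gtens : S_GT :=
  H74.gt H41.lin (H71.reg H41.laty Pool.Agent.Helper66.TF.CNT.main)

/-- the quotient of a PI ring by the sum of its nilpotent ideals is good -/
theorem wedderburn (d : ℕ) (R : Type) [NonUnitalRing R] (hR : MI d R) (R' : Type)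
    [NonUnitalRing R'] (π : R →ₙ+* R') (hsurj : Function.Surjective π)
    (hπ : ∀ N : AddSubgroup R, NilIdl N → ∀ a ∈ N, π a = 0) : Good R' :=
  wed Pool.TF52.main d R hR R' π hsurj hπ

/-- `a ⊗ m ↦ m a` -/
def matB (A : Type) [NonUnitalRing A] (n : ℕ) :
    A →+ Matrix (Fin n) (Fin n) ℤ →+ Matrix (Fin n) (Fin n) A where
  toFun a :=
    { toFun := fun m => Matrix.of fun i j => m i j • a
      map_zero' := by ext i j; simp
      map_add' := by intro m m'; ext i j; simp [add_smul] }
  map_zero' := by ext m i j; simp
  map_add' := by intro a b; ext m i j; simp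

lemma matB_apply (A : Type) [NonUnitalRing A] (n : ℕ) (a : A) (m : Matrix (Fin n) (Fin n) ℤ)
    (i j : Fin n) : matB A n a m i j = m i j • a := rfl

/-- matrix rings over good rings are good -/
theorem good_matrix (A : Type) [NonUnitalRing A] (n : ℕ) (h : Good A) :
    Good (Matrix (Fin n) (Fin n) A) := by
  have hZ : Good (Matrix (Fin n) (Fin n) ℤ) :=
    H41.mat _ ℤ n (NonUnitalRingHom.id _) (fun _ _ h => h)
  apply gtens A (Matrix (Fin n) (Fin n) ℤ) _ (matB A n) h hZ
  · intro a b a' b'
    ext i j
    rw [matB_apply, Matrix.mul_apply, Matrix.mul_apply, Finset.sum_smul]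
    apply Finset.sum_congr rfl
    intro k _
    rw [matB_apply, matB_apply, smul_mul_smul_comm]
  · intro r
    have h1 : r = ∑ i, ∑ j, matB A n (r i j) (Matrix.single i j 1) := by
      ext p q
      rw [Matrix.sum_apply, Finset.sum_eq_single p]
      · rw [Matrix.sum_apply, Finset.sum_eq_single q]
        · rw [matB_apply]; simp
        · intro j _ hj
          rw [matB_apply, Matrix.single_apply, if_neg (by rintro ⟨_, h⟩; exact hj h), zero_smul]
        · intro h; exact absurd (Finset.mem_univ _) h
      · intro i _ hi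
        rw [Matrix.sum_apply]
        apply Finset.sum_eq_zero
        intro j _
        rw [matB_apply, Matrix.single_apply, if_neg (by rintro ⟨h, _⟩; exact hi h), zero_smul]
      · intro h; exact absurd (Finset.mem_univ _) h
    rw [h1]
    apply AddSubgroup.sum_mem
    intro i _
    apply AddSubgroup.sum_mem
    intro j _
    exact AddSubgroup.subset_closure ⟨_, _, rfl⟩

end Pool.TF48
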