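import Pool.Agent.Helper48.TF.FIN2
import Pool.Agent.Helper48.TF.AMI
import Pool.Agent.Helper85.TF.STD
import Pool.Agent.Helper33.TF.UP
import Pool.Agent.Helper39.TF.SPI
import Pool.Agent.Helper57.TF.PSD
import Pool.Agent.Helper57.TF.POL

/-!
# Assembly, stage 3: Amitsur's theorem over the integers
-/

set_option autoImplicit false

namespace Pool.TF48

/-- every PI ring satisfies a multilinear identity with a coefficient `1` -/
theorem amitsur (R : Type) [NonUnitalRing R] (hR : PI R) : ∃ d, MI d R :=
  ami H57.pol (H39.spi H57.pol H57.psd (H85.std H41.lev H41.prim) H33UP.up H41.lin)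
    Pool.TF52.main R hR

end Pool.TF48
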