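import Pool.Agent.Helper48.TF.PROD

/-!
# Permanence: homomorphisms with product of the kernels zero
-/

set_option autoImplicit false

namespace Pool.TF48

/-! ### Homomorphisms of free rings -/

section basics

variable {X : Type}

/-- a generator -/
noncomputable def gen (x : X) : FA X := MonoidAlgebra.single (FreeMonoid.of x) 1

lemma lft_gen {B : Type} [Ring B] (r : X → B) (x : X) : lft r (gen x) = r x := by
  simp [lft, gen]

lemma fa_ext {B : Type} [Ring B] {g h : FA X →+* B} (hx : ∀ x, g (gen x) = h (gen x)) : g = h := by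
  apply MonoidAlgebra.ringHom_ext
  · intro n
    have e1 : (MonoidAlgebra.single (1 : FreeMonoid X) n : FA X) = (n : FA X) := by
      rw [MonoidAlgebra.intCast_def]; rfl
    rw [e1, map_intCast, map_intCast]
  · intro w
    induction w using FreeMonoid.recOn with
    | one =>
      have : (MonoidAlgebra.single (1 : FreeMonoid X) (1 : ℤ) : FA X) = 1 := rfl
      rw [this, map_one, map_one]
    | of_mul x w ih =>
      have : (MonoidAlgebra.single (FreeMonoid.of x * w) (1 : ℤ) : FA X) =
          gen x * MonoidAlgebra.single w 1 := by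
        unfold gen
        rw [MonoidAlgebra.single_mul_single, mul_one]
      rw [this, map_mul, map_mul, hx, ih]

/-- the augmentation -/
noncomputable def aug : FA X →+* ℤ := lft (fun _ => 0)

lemma aug_eq (a : FA X) : aug a = a.coeff 1 := by
  classical
  induction a using MonoidAlgebra.induction_linear with
  | zero => simp
  | add a b ha hb => rw [map_add, ha, hb]; rfl
  | single w n =>
    have e1 : (MonoidAlgebra.single w n : FA X) =
        MonoidAlgebra.single 1 n * MonoidAlgebra.single w 1 := by
      rw [MonoidAlgebra.single_mul_single, mul_one, one_mul]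
    have e2 : (MonoidAlgebra.single (1 : FreeMonoid X) n : FA X) = (n : FA X) := by
      rw [MonoidAlgebra.intCast_def]; rfl
    have h1 : aug (MonoidAlgebra.single w n) = if w = 1 then n else 0 := by
      rw [e1, map_mul, e2, map_intCast]
      induction w using FreeMonoid.recOn with
      | one =>
        have : (MonoidAlgebra.single (1 : FreeMonoid X) (1 : ℤ) : FA X) = 1 := rfl
        rw [this, map_one, if_pos rfl]; simp
      | of_mul x w _ =>
        have e3 : (MonoidAlgebra.single (FreeMonoid.of x * w) (1 : ℤ) : FA X) =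
            gen x * MonoidAlgebra.single w 1 := by
          unfold gen
          rw [MonoidAlgebra.single_mul_single, mul_one]
        have e4 : aug (gen x : FA X) = 0 := lft_gen _ x
        have e5 : FreeMonoid.of x * w ≠ 1 := by
          intro h
          have := congrArg FreeMonoid.toList h
          simp at this
        rw [e3, map_mul, e4, if_neg e5]; simp
    rw [h1, MonoidAlgebra.coeff_single, Finsupp.single_apply]

/-- a homomorphism `ℤ ⊕ R → ℤ ⊕ R'` -/
noncomputable def mapU {R R' : Type} [NonUnitalRing R] [NonUnitalRing R'] (π : R →ₙ+* R') :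
    Unitization ℤ R →+* Unitization ℤ R' where
  toFun x := ⟨x.fst, π x.snd⟩
  map_one' := by
    ext
    · rfl
    · exact map_zero π
  map_zero' := by
    ext
    · rfl
    · exact map_zero π
  map_add' := by
    intro x y
    ext
    · rfl
    · exact map_add π _ _
  map_mul' := by
    intro x y
    ext
    · rfl
    · change π (x.fst • y.snd + y.fst • x.snd + x.snd * y.snd) = _
      rw [map_add, map_add, map_mul, map_zsmul, map_zsmul]
      rfl

lemma mapU_inr {R R' : Type} [NonUnitalRing R] [NonUnitalRing R'] (π : R →ₙ+* R') (r : R) :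
    mapU π (r : Unitization ℤ R) = (π r : R') := rfl

lemma ev_gen {R : Type} [NonUnitalRing R] (r : X → R) (x : X) : ev r (gen x) = (r x : R) :=
  lft_gen _ x

lemma mapU_ev {R R' : Type} [NonUnitalRing R] [NonUnitalRing R'] (π : R →ₙ+* R') (r : X → R)
    (a : FA X) : mapU π (ev r a) = ev (fun x => π (r x)) a := by
  have : (mapU π).comp (ev r) = ev (fun x => π (r x)) :=
    fa_ext (B := Unitization ℤ R') fun x => by
      rw [RingHom.comp_apply, ev_gen, ev_gen, mapU_inr]
  exact DFunLike.congr_fun this a

/-- the first component as a homomorphism -/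
noncomputable def fstU (R : Type) [NonUnitalRing R] : Unitization ℤ R →+* ℤ where
  toFun x := x.fst
  map_one' := rfl
  map_zero' := rfl
  map_add' _ _ := rfl
  map_mul' _ _ := rfl

lemma fst_ev {R : Type} [NonUnitalRing R] (r : X → R) (a : FA X) : (ev r a).fst = a.coeff 1 := by
  rw [← aug_eq]
  have : (fstU R).comp (ev r) = aug :=
    fa_ext (B := ℤ) fun x => by
      rw [RingHom.comp_apply, ev_gen]
      exact (lft_gen (fun _ : X => (0 : ℤ)) x).symm
  exact DFunLike.congr_fun this a

lemma eq_inr {R : Type} [NonUnitalRing R] {x : Unitization ℤ R} (h : x.fst = 0) :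
    x = (x.snd : R) := by
  ext
  · rw [h]; rfl
  · rfl

lemma lft_lft {X Y B : Type} [Ring B] (r : Y → B) (a : X → FA Y) (f : FA X) :
    lft r (lft a f) = lft (fun x => lft r (a x)) f := by
  have : (lft r).comp (lft a) = lft (fun x => lft r (a x)) := by
    apply fa_ext
    intro x
    rw [RingHom.comp_apply, lft_gen, lft_gen]
  exact DFunLike.congr_fun this f

lemma map_lft {X B C : Type} [Ring B] [Ring C] (g : B →+* C) (r : X → B) (f : FA X) :
    g (lft r f) = lft (fun x => g (r x)) f := by
  have : g.comp (lft r) = lft (fun x => g (r x)) := by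
    apply fa_ext
    intro x
    rw [RingHom.comp_apply, lft_gen, lft_gen]
  exact DFunLike.congr_fun this f

end basics

/-! ### Nice ideals of the free ring -/

section nice

variable {X : Type}

/-- products of elements -/
noncomputable def mulG (I J : AddSubgroup (FA X)) : AddSubgroup (FA X) :=
  AddSubgroup.closure {x | ∃ i ∈ I, ∃ j ∈ J, x = i * j}

/-- `K` is a two-sided ideal inside the augmentation ideal with torsion-free PI quotient -/
def Nice (K : AddSubgroup (FA X)) : Prop :=
  (∀ a ∈ K, ∀ b, a * b ∈ K ∧ b * a ∈ K) ∧ (∀ a ∈ K, a.coeff 1 = 0) ∧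
    (∀ (m : ℤ) (a : FA X), m ≠ 0 → m • a ∈ K → a ∈ K) ∧
    ∃ f : FA ℕ, f.coeff 1 = 0 ∧ (∃ w, f.coeff w = 1) ∧
      ∀ a : ℕ → FA X, (∀ n, (a n).coeff 1 = 0) → lft a f ∈ K

/-- an additive subgroup as a submodule -/
noncomputable def toSub (I : AddSubgroup (FA X)) : Submodule ℤ (Prod.MA ℤ X) where
  carrier := I
  add_mem' := I.add_mem
  zero_mem' := I.zero_mem
  smul_mem' n _ ha := I.zsmul_mem ha n

lemma mem_toSub (I : AddSubgroup (FA X)) (a : FA X) : a ∈ toSub I ↔ a ∈ I := Iff.rfl

lemma toSub_mul (I J : AddSubgroup (FA X)) (a : FA X) : a ∈ toSub I * toSub J ↔ a ∈ mulG I J := by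
  constructor
  · intro h
    induction h using Submodule.mul_induction_on' with
    | mem_mul_mem i hi j hj => exact AddSubgroup.subset_closure ⟨i, hi, j, hj, rfl⟩
    | add a _ b _ ha hb => exact add_mem ha hb
  · intro h
    induction h using AddSubgroup.closure_induction with
    | mem x hx =>
      obtain ⟨i, hi, j, hj, rfl⟩ := hx
      exact Submodule.mul_mem_mul hi hj
    | zero => exact Submodule.zero_mem _
    | add x y _ _ hx hy => exact Submodule.add_mem _ hx hy
    | neg x _ hx => exact Submodule.neg_mem _ hx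

lemma sat_mulG {I J : AddSubgroup (FA X)} (hI : ∀ a ∈ I, ∀ b, a * b ∈ I)
    (hJ : ∀ a ∈ J, ∀ b, b * a ∈ J) (sI : ∀ (m : ℤ) (a : FA X), m ≠ 0 → m • a ∈ I → a ∈ I)
    (sJ : ∀ (m : ℤ) (a : FA X), m ≠ 0 → m • a ∈ J → a ∈ J) (m : ℤ) (a : FA X) (hm : m ≠ 0)
    (h : m • a ∈ mulG I J) : a ∈ mulG I J := by
  have key := Prod.sat_mul (k := ℤ) (toSub I) (toSub J) hI hJ
    (fun m a hm h => sI m a hm h) (fun m a hm h => sJ m a hm h)
  rw [← toSub_mul]
  exact key m a hm ((toSub_mul I J _).2 h)

/-! ### Products of identities -/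

/-- renaming of the variables -/
noncomputable def ren (ι : ℕ → ℕ) : FA ℕ →+* FA ℕ :=
  MonoidAlgebra.mapDomainRingHom ℤ (FreeMonoid.map ι)

lemma ren_gen (ι : ℕ → ℕ) (n : ℕ) : ren ι (gen n) = gen (ι n) := by
  simp [ren, gen]

lemma lft_ren {B : Type} [Ring B] (ι : ℕ → ℕ) (r : ℕ → B) (f : FA ℕ) :
    lft r (ren ι f) = lft (fun n => r (ι n)) f := by
  have : (lft r).comp (ren ι) = lft (fun n => r (ι n)) := by
    apply fa_ext
    intro x
    rw [RingHom.comp_apply, ren_gen, lft_gen, lft_gen]
  exact DFunLike.congr_fun this f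

lemma coeff_ren (ι : ℕ → ℕ) (f : FA ℕ) :
    (ren ι f).coeff = Finsupp.mapDomain (FreeMonoid.map ι) f.coeff := rfl

lemma map_inj {ι : ℕ → ℕ} (h : Function.Injective ι) :
    Function.Injective (FreeMonoid.map ι : FreeMonoid ℕ →* FreeMonoid ℕ) := by
  intro a b hab
  have h1 : List.map ι (FreeMonoid.toList a) = List.map ι (FreeMonoid.toList b) := by
    rw [← FreeMonoid.toList_map, ← FreeMonoid.toList_map, hab]
  exact FreeMonoid.toList.injective (List.map_injective_iff.2 h h1)

lemma coeff_ren_map {ι : ℕ → ℕ} (h : Function.Injective ι) (f : FA ℕ) (w : FreeMonoid ℕ) :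
    (ren ι f).coeff (FreeMonoid.map ι w) = f.coeff w := by
  rw [coeff_ren, Finsupp.mapDomain_apply (map_inj h)]

lemma mem_supp_ren {ι : ℕ → ℕ} {f : FA ℕ} {w : FreeMonoid ℕ} (hw : w ∈ (ren ι f).coeff.support) :
    ∃ v, w = FreeMonoid.map ι v := by
  classical
  rw [coeff_ren] at hw
  have := Finsupp.mapDomain_support hw
  rw [Finset.mem_image] at this
  obtain ⟨v, -, rfl⟩ := this
  exact ⟨v, rfl⟩

lemma coeff_prod (f g : FA ℕ) (v w : FreeMonoid ℕ) :
    (ren (fun n => 2 * n) f * ren (fun n => 2 * n + 1) g).coeff
      (FreeMonoid.map (fun n => 2 * n) v * FreeMonoid.map (fun n => 2 * n + 1) w) =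
      f.coeff v * g.coeff w := by
  rw [MonoidAlgebra.coeff_mul_mul_of_uniqueMul, coeff_ren_map, coeff_ren_map]
  · intro a b h; simpa using h
  · intro a b h; simpa using h
  · intro a b ha hb hab
    obtain ⟨a', rfl⟩ := mem_supp_ren ha
    obtain ⟨b', rfl⟩ := mem_supp_ren hb
    have h1 := congrArg FreeMonoid.toList hab
    rw [FreeMonoid.toList_mul, FreeMonoid.toList_mul, FreeMonoid.toList_map,
      FreeMonoid.toList_map, FreeMonoid.toList_map, FreeMonoid.toList_map] at h1
    have e1 : ∀ l : List ℕ, (List.map (fun n => 2 * n) l).filter (fun n => n % 2 = 0) =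
        List.map (fun n => 2 * n) l := by
      intro l
      rw [List.filter_eq_self]
      intro x hx
      obtain ⟨y, -, rfl⟩ := List.mem_map.1 hx
      simp
    have e2 : ∀ l : List ℕ, (List.map (fun n => 2 * n + 1) l).filter (fun n => n % 2 = 0) =
        [] := by
      intro l
      rw [List.filter_eq_nil_iff]
      intro x hx
      obtain ⟨y, -, rfl⟩ := List.mem_map.1 hx
      simp
    have h2 := congrArg (List.filter (fun n => n % 2 = 0)) h1
    rw [List.filter_append, List.filter_append, e1, e1, e2, e2, List.append_nil,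
      List.append_nil] at h2
    rw [h2] at h1
    have h3 := List.append_cancel_left h1
    constructor
    · apply FreeMonoid.toList.injective
      rw [FreeMonoid.toList_map, FreeMonoid.toList_map, h2]
    · apply FreeMonoid.toList.injective
      rw [FreeMonoid.toList_map, FreeMonoid.toList_map, h3]

lemma coeff_one_mul (a b : FA X) (h : a.coeff 1 = 0) : (a * b).coeff 1 = 0 := by
  rw [← aug_eq] at h ⊢
  rw [map_mul, h, zero_mul]

lemma coeff_ren_one (ι : ℕ → ℕ) (f : FA ℕ) : (ren ι f).coeff 1 = f.coeff 1 := by
  rw [← aug_eq, ← aug_eq]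
  exact lft_ren ι (fun _ => (0 : ℤ)) f

theorem nice_mul {I J : AddSubgroup (FA X)} (hI : Nice I) (hJ : Nice J) : Nice (mulG I J) := by
  obtain ⟨hI1, hI2, hI3, f, hf1, ⟨v, hv⟩, hf2⟩ := hI
  obtain ⟨hJ1, hJ2, hJ3, g, hg1, ⟨w, hw⟩, hg2⟩ := hJ
  refine ⟨?_, ?_, ?_, ?_⟩
  · intro a ha b
    induction ha using AddSubgroup.closure_induction with
    | mem x hx =>
      obtain ⟨i, hi, j, hj, rfl⟩ := hx
      exact ⟨AddSubgroup.subset_closure ⟨i, hi, j * b, (hJ1 j hj b).1, by rw [mul_assoc]⟩,
        AddSubgroup.subset_closure ⟨b * i, (hI1 i hi b).2, j, hj, by rw [mul_assoc]⟩⟩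
    | zero => rw [zero_mul, mul_zero]; exact ⟨zero_mem _, zero_mem _⟩
    | add x y _ _ hx hy =>
      rw [add_mul, mul_add]; exact ⟨add_mem hx.1 hy.1, add_mem hx.2 hy.2⟩
    | neg x _ hx => rw [neg_mul, mul_neg]; exact ⟨neg_mem hx.1, neg_mem hx.2⟩
  · intro a ha
    induction ha using AddSubgroup.closure_induction with
    | mem x hx =>
      obtain ⟨i, hi, j, hj, rfl⟩ := hx
      exact coeff_one_mul i j (hI2 i hi)
    | zero => rfl
    | add x y _ _ hx hy =>
      have : (x + y).coeff 1 = x.coeff 1 + y.coeff 1 := rfl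
      rw [this, hx, hy, add_zero]
    | neg x _ hx =>
      have : (-x).coeff 1 = -x.coeff 1 := rfl
      rw [this, hx, neg_zero]
  · exact sat_mulG (fun a ha b => (hI1 a ha b).1) (fun a ha b => (hJ1 a ha b).2) hI3 hJ3
  · refine ⟨ren (fun n => 2 * n) f * ren (fun n => 2 * n + 1) g, ?_,
      ⟨FreeMonoid.map (fun n => 2 * n) v * FreeMonoid.map (fun n => 2 * n + 1) w, ?_⟩, ?_⟩
    · apply coeff_one_mul
      rw [coeff_ren_one, hf1]
    · rw [coeff_prod, hv, hw, one_mul]
    · intro a ha
      rw [map_mul, lft_ren, lft_ren]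
      exact AddSubgroup.subset_closure ⟨_, hf2 _ (fun n => ha _), _, hg2 _ (fun n => ha _), rfl⟩

/-- iterated products -/
noncomputable def mulL : (n : ℕ) → (Fin (n + 1) → AddSubgroup (FA X)) → AddSubgroup (FA X)
  | 0, I => I 0
  | n + 1, I => mulG (I 0) (mulL n (fun i => I i.succ))

lemma nice_mulL (n : ℕ) (I : Fin (n + 1) → AddSubgroup (FA X)) (h : ∀ i, Nice (I i)) :
    Nice (mulL n I) := by
  induction n with
  | zero => exact h 0
  | succ n ih => exact nice_mul (h 0) (ih _ fun i => h i.succ)

lemma mulL_zero {B : Type} [AddCommGroup B] (n : ℕ) (I : Fin (n + 1) → AddSubgroup (FA X))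
    (g : FA X →+ B)
    (h : ∀ a : Fin (n + 1) → FA X, (∀ i, a i ∈ I i) → g (List.ofFn a).prod = 0) :
    ∀ c ∈ mulL n I, g c = 0 := by
  induction n generalizing g with
  | zero =>
    intro c hc
    have := h (fun _ => c) (fun i => by
      have : i = 0 := Subsingleton.elim (α := Fin 1) _ _
      subst this
      exact hc)
    simpa using this
  | succ n ih =>
    intro c hc
    change c ∈ mulG (I 0) (mulL n (fun i => I i.succ)) at hc
    induction hc using AddSubgroup.closure_induction with
    | mem x hx =>
      obtain ⟨i, hi, j, hj, rfl⟩ := hx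
      have := ih (fun i => I i.succ) (g.comp (AddMonoidHom.mulLeft i)) (by
        intro a ha
        have h2 := h (Fin.cons i a) (by
          intro k
          refine Fin.cases ?_ ?_ k
          · exact hi
          · intro k; exact ha k)
        rw [List.ofFn_succ, List.prod_cons] at h2
        exact h2)
      exact this j hj
    | zero => exact map_zero g
    | add x y _ _ hx hy => rw [map_add, hx, hy, add_zero]
    | neg x _ hx => rw [map_neg, hx, neg_zero]

/-! ### From good rings to nice ideals and back -/

lemma nice_of_good {R' : Type} [NonUnitalRing R'] (hG : Good R') (r : X → R') :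
    ∃ I : AddSubgroup (FA X), Nice I ∧ ∀ a ∈ I, ev r a = 0 := by
  obtain ⟨S, _, ⟨f, hf1, hf2, hf3⟩, hT, φ, hφ⟩ := hG
  choose s hs using fun x : X => hφ (r x)
  refine ⟨(ev s).toAddMonoidHom.ker, ⟨?_, ?_, ?_, f, hf1, hf2, ?_⟩, ?_⟩
  · intro a ha b
    have h : ev s a = 0 := ha
    constructor
    · change ev s (a * b) = 0
      rw [map_mul, h, zero_mul]
    · change ev s (b * a) = 0
      rw [map_mul, h, mul_zero]
  · intro a ha
    have h : ev s a = 0 := ha
    rw [← fst_ev s, h]; rfl
  · intro m a hm ha
    have h : ev s (m • a) = 0 := ha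
    rw [map_zsmul] at h
    change ev s a = 0
    have h1 : m • (ev s a).fst = 0 := congrArg (fun x : Unitization ℤ S => x.fst) h
    have h2 : m • (ev s a).snd = 0 := congrArg (fun x : Unitization ℤ S => x.snd) h
    ext
    · rw [smul_eq_mul] at h1
      exact (mul_eq_zero.1 h1).resolve_left hm
    · have h3 : m.natAbs • (ev s a).snd = 0 := by
        rcases Int.natAbs_eq m with h | h
        · rw [h, natCast_zsmul] at h2; exact h2
        · rw [h, neg_smul, natCast_zsmul, neg_eq_zero] at h2; exact h2
      exact hT _ _ (Int.natAbs_ne_zero.2 hm) h3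
  · intro a ha
    change ev s (lft a f) = 0
    unfold ev
    rw [lft_lft]
    have : (fun n => lft (fun x => (s x : Unitization ℤ S)) (a n)) =
        fun n => (((ev s (a n)).snd : S) : Unitization ℤ S) := by
      funext n
      exact eq_inr ((fst_ev s (a n)).trans (ha n))
    rw [this]
    exact hf3 _
  · intro a ha
    have h : ev s a = 0 := ha
    have h1 := mapU_ev φ s a
    rw [h, map_zero] at h1
    have h2 : (fun x => φ (s x)) = r := funext hs
    rw [h2] at h1
    exact h1.symm

theorem good_of_nice {R : Type} [NonUnitalRing R] (K : AddSubgroup (FA R)) (hK : Nice K)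
    (h : ∀ a ∈ K, ev (fun r : R => r) a = 0) : Good R := by
  obtain ⟨hK1, hK2, hK3, f, hf1, hf2, hf3⟩ := hK
  let K' : Ideal (FA R) :=
    { carrier := K
      add_mem' := K.add_mem
      zero_mem' := K.zero_mem
      smul_mem' := fun c a ha => (hK1 a ha c).2 }
  have : K'.IsTwoSided := ⟨fun b ha => (hK1 _ ha b).1⟩
  let B := FA R ⧸ K'
  let augB : B →+* ℤ := Ideal.Quotient.lift K' aug (fun a ha => by rw [aug_eq]; exact hK2 a ha)
  let evB : B →+* Unitization ℤ R :=
    Ideal.Quotient.lift (S := Unitization ℤ R) K' (ev (fun r : R => r)) h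
  have hfst : ∀ b : B, (evB b).fst = augB b := by
    intro b
    obtain ⟨a, rfl⟩ := Ideal.Quotient.mk_surjective b
    change (ev (fun r : R => r) a).fst = aug a
    rw [fst_ev, aug_eq]
  let S' : NonUnitalSubring B :=
    { carrier := {b | augB b = 0}
      add_mem' := by
        intro a b ha hb
        change augB (a + b) = 0
        rw [map_add, show augB a = 0 from ha, show augB b = 0 from hb, add_zero]
      zero_mem' := map_zero _
      mul_mem' := by
        intro a b ha _
        change augB (a * b) = 0
        rw [map_mul, show augB a = 0 from ha, zero_mul]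
      neg_mem' := by
        intro a ha
        change augB (-a) = 0
        rw [map_neg, show augB a = 0 from ha, neg_zero] }
  refine ⟨S', inferInstance, ⟨f, hf1, hf2, ?_⟩, ?_, ?_⟩
  · intro s
    have hlift : ∀ n, ∃ a : FA R, Ideal.Quotient.mk K' a = (s n : B) ∧ a.coeff 1 = 0 := by
      intro n
      obtain ⟨a, ha⟩ := Ideal.Quotient.mk_surjective (s n : B)
      refine ⟨a, ha, ?_⟩
      have h1 : augB (s n : B) = 0 := (s n).2
      rw [← ha] at h1
      have h2 : augB (Ideal.Quotient.mk K' a) = aug a := rfl
      rw [h2, aug_eq] at h1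
      exact h1
    choose a ha ha0 using hlift
    have h1 : lft (fun n => (s n : B)) f = 0 := by
      have : (fun n => (s n : B)) = fun n => Ideal.Quotient.mk K' (a n) := funext fun n =>
        (ha n).symm
      rw [this, ← map_lft, Ideal.Quotient.eq_zero_iff_mem]
      exact hf3 a ha0
    let j : Unitization ℤ S' →+* B :=
      { toFun := fun x => (x.fst : B) + (x.snd : B)
        map_one' := by
          change ((1 : ℤ) : B) + ((0 : S') : B) = 1
          simp
        map_zero' := by
          change ((0 : ℤ) : B) + ((0 : S') : B) = 0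
          simp
        map_add' := by
          intro x y
          change ((x.fst + y.fst : ℤ) : B) + ((x.snd + y.snd : S') : B) = _
          push_cast
          abel
        map_mul' := by
          intro x y
          change ((x.fst * y.fst : ℤ) : B) +
            ((x.fst • y.snd + y.fst • x.snd + x.snd * y.snd : S') : B) = _
          push_cast
          rw [add_mul, mul_add, mul_add, zsmul_eq_mul, zsmul_eq_mul, (Int.cast_commute y.fst _).eq]
          abel }
    have hj : j.comp (ev s) = lft (fun n => (s n : B)) :=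
      fa_ext (B := B) fun x => by
        rw [RingHom.comp_apply, ev_gen, lft_gen]
        change ((0 : ℤ) : B) + (s x : B) = _
        simp
    have h2 : j (ev s f) = 0 := by
      rw [← RingHom.comp_apply, hj, h1]
    have h3 : (ev s f).fst = 0 := by rw [fst_ev, hf1]
    have h4 : (((ev s f).fst : ℤ) : B) + ((ev s f).snd : B) = 0 := h2
    rw [h3, Int.cast_zero, zero_add] at h4
    ext
    · exact h3
    · exact h4
  · intro k s hk hs
    obtain ⟨a, ha⟩ := Ideal.Quotient.mk_surjective (s : B)
    have h1 : k • (s : B) = 0 := congrArg Subtype.val hs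
    rw [← ha, ← map_nsmul, Ideal.Quotient.eq_zero_iff_mem] at h1
    have h2 : ((k : ℤ) • a) ∈ K := by
      rw [natCast_zsmul]; exact h1
    have h3 : a ∈ K' := hK3 k a (by exact_mod_cast hk) h2
    apply Subtype.ext
    rw [← ha]
    exact Ideal.Quotient.eq_zero_iff_mem.2 h3
  · refine ⟨{ toFun := fun b => (evB (b : B)).snd
              map_mul' := ?_
              map_zero' := ?_
              map_add' := ?_ }, ?_⟩
    · intro x y
      have hx : (evB (x : B)).fst = 0 := (hfst _).trans x.2
      have hy : (evB (y : B)).fst = 0 := (hfst _).trans y.2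
      have : ((x * y : S') : B) = (x : B) * (y : B) := rfl
      rw [this, map_mul, Unitization.snd_mul, hx, hy, zero_smul, zero_smul, zero_add, zero_add]
    · have : ((0 : S') : B) = 0 := rfl
      simp only [this, map_zero]
      rfl
    · intro x y
      have : ((x + y : S') : B) = (x : B) + (y : B) := rfl
      simp only [this, map_add]
      rfl
    · intro r
      refine ⟨⟨Ideal.Quotient.mk K' (gen r), ?_⟩, ?_⟩
      · change aug (gen r) = 0
        exact lft_gen (fun _ : R => (0 : ℤ)) r
      · change (ev (fun r : R => r) (gen r)).snd = r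
        rw [ev_gen]
        rfl

end nice

/-- **Permanence.** -/
theorem perm : S_PERM := by
  intro R _ k R' _ π hG hprod
  choose I hI hI0 using fun i => nice_of_good (hG i) (fun r : R => π i r)
  apply good_of_nice (mulL k I) (nice_mulL k I hI)
  have key := mulL_zero k I (ev (fun r : R => r)).toAddMonoidHom (by
    intro a ha
    change ev (fun r : R => r) (List.ofFn a).prod = 0
    rw [map_list_prod, List.map_ofFn]
    have h1 : (⇑(ev (fun r : R => r)) ∘ a) =
        fun i => (((ev (fun r : R => r) (a i)).snd : R) : Unitization ℤ R) := by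
      funext i
      exact eq_inr ((fst_ev (fun r : R => r) (a i)).trans ((hI i).2.1 _ (ha i)))
    rw [h1]
    apply hprod
    intro i
    have h2 := hI0 i _ (ha i)
    rw [← mapU_ev (π i) (fun r : R => r)] at h2
    exact congrArg (fun x : Unitization ℤ (R' i) => x.snd) h2)
  exact key

end Pool.TF48
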