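import Pool.Agent.Helper48.TF.Defs

/-!
# The product of two ideals of a free ring with torsion-free quotients has a torsion-free quotient
-/

set_option autoImplicit false

namespace Pool.TF48.Prod

open TensorProduct

variable {k : Type} [CommRing k] {X : Type}

/-- the free algebra -/
abbrev MA (k : Type) [CommRing k] (X : Type) : Type := MonoidAlgebra k (FreeMonoid X)

/-- the quotient by `K` is torsion-free -/
def Sat {M : Type} [AddCommGroup M] [Module k M] (K : Submodule k M) : Prop :=
  ∀ (m : k) (a : M), m ≠ 0 → m • a ∈ K → a ∈ K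

/-- a word -/
noncomputable def wd (l : List X) : MA k X := MonoidAlgebra.single (FreeMonoid.ofList l) 1

/-- a letter -/
noncomputable def lt (x : X) : MA k X := wd [x]

lemma wd_nil : (wd ([] : List X) : MA k X) = 1 := rfl

lemma wd_append (l₁ l₂ : List X) : (wd (l₁ ++ l₂) : MA k X) = wd l₁ * wd l₂ := by
  unfold wd
  rw [MonoidAlgebra.single_mul_single, mul_one, FreeMonoid.ofList_append]

lemma wd_cons (x : X) (l : List X) : (wd (x :: l) : MA k X) = lt x * wd l := wd_append [x] l

/-- the target of the universal derivation -/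
abbrev T (k : Type) [CommRing k] (X : Type) : Type := MA k X ⊗[k] (X →₀ MA k X)

/-- left multiplication -/
noncomputable def L (a : MA k X) : T k X →ₗ[k] T k X :=
  LinearMap.rTensor _ (LinearMap.mulLeft k a)

/-- right multiplication on the second factor -/
noncomputable def mr (b : MA k X) : (X →₀ MA k X) →ₗ[k] (X →₀ MA k X) :=
  Finsupp.mapRange.linearMap (LinearMap.mulRight k b)

lemma mr_single (b v : MA k X) (x : X) : mr b (Finsupp.single x v) = Finsupp.single x (v * b) := by
  simp [mr]

lemma mr_apply (b : MA k X) (v : X →₀ MA k X) (x : X) : mr b v x = v x * b := by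
  simp [mr]

/-- right multiplication -/
noncomputable def R (b : MA k X) : T k X →ₗ[k] T k X :=
  LinearMap.lTensor _ (mr b)

/-- the derivation on words -/
noncomputable def dw : List X → T k X
  | [] => 0
  | x :: l => 1 ⊗ₜ Finsupp.single x (wd l) + L (lt x) (dw l)

lemma L_tmul (a u : MA k X) (v : X →₀ MA k X) : L a (u ⊗ₜ v) = (a * u) ⊗ₜ[k] v := rfl

lemma R_tmul (b u : MA k X) (v : X →₀ MA k X) : R b (u ⊗ₜ v) = u ⊗ₜ[k] (mr b v) := rfl

lemma L_mul (a b : MA k X) (t : T k X) : L (a * b) t = L a (L b t) := by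
  induction t using TensorProduct.induction_on with
  | zero => simp
  | tmul u v => rw [L_tmul, L_tmul, L_tmul, mul_assoc]
  | add s t hs ht => simp only [map_add, hs, ht]

lemma L_one (t : T k X) : L (1 : MA k X) t = t := by
  induction t using TensorProduct.induction_on with
  | zero => simp
  | tmul u v => rw [L_tmul, one_mul]
  | add s t hs ht => simp only [map_add, hs, ht]

lemma L_R (a b : MA k X) (t : T k X) : L a (R b t) = R b (L a t) := by
  induction t using TensorProduct.induction_on with
  | zero => simp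
  | tmul u v => rw [L_tmul, R_tmul, R_tmul, L_tmul]
  | add s t hs ht => simp only [map_add, hs, ht]

lemma L_add (a a' : MA k X) (t : T k X) : L (a + a') t = L a t + L a' t := by
  induction t using TensorProduct.induction_on with
  | zero => simp
  | tmul u v => rw [L_tmul, L_tmul, L_tmul, add_mul, TensorProduct.add_tmul]
  | add s t hs ht => simp only [map_add, hs, ht]; abel

lemma R_add (a a' : MA k X) (t : T k X) : R (a + a') t = R a t + R a' t := by
  induction t using TensorProduct.induction_on with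
  | zero => simp
  | tmul u v =>
    rw [R_tmul, R_tmul, R_tmul, ← TensorProduct.tmul_add]
    congr 1
    ext1 x
    rw [Finsupp.add_apply, mr_apply, mr_apply, mr_apply, mul_add]
  | add s t hs ht => simp only [map_add, hs, ht]; abel

lemma L_smul (n : k) (a : MA k X) (t : T k X) : L (n • a) t = n • L a t := by
  induction t using TensorProduct.induction_on with
  | zero => simp
  | tmul u v => rw [L_tmul, L_tmul, smul_mul_assoc, TensorProduct.smul_tmul']
  | add s t hs ht => simp only [map_add, hs, ht, smul_add]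

lemma R_smul (n : k) (a : MA k X) (t : T k X) : R (n • a) t = n • R a t := by
  induction t using TensorProduct.induction_on with
  | zero => simp
  | tmul u v =>
    rw [R_tmul, R_tmul, ← TensorProduct.tmul_smul]
    congr 1
    ext1 x
    rw [Finsupp.smul_apply, mr_apply, mr_apply, mul_smul_comm]
  | add s t hs ht => simp only [map_add, hs, ht, smul_add]

lemma dw_append (l₁ l₂ : List X) :
    (dw (l₁ ++ l₂) : T k X) = L (wd l₁) (dw l₂) + R (wd l₂) (dw l₁) := by
  induction l₁ with
  | nil => simp [wd_nil, L_one, dw]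
  | cons x l ih =>
    rw [List.cons_append, dw, ih, dw, map_add, map_add, R_tmul, mr_single, wd_append, wd_cons,
      L_mul, L_R]
    abel

/-- the derivation -/
noncomputable def δ : MA k X →ₗ[k] T k X :=
  (MonoidAlgebra.basis (FreeMonoid X) k).constr k (fun w => dw (FreeMonoid.toList w))

lemma δ_wd (l : List X) : (δ (wd l) : T k X) = dw l := by
  have h := (MonoidAlgebra.basis (FreeMonoid X) k).constr_basis k
    (fun w : FreeMonoid X => (dw (FreeMonoid.toList w) : T k X)) (FreeMonoid.ofList l)
  rw [MonoidAlgebra.basis_apply] at h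
  exact h

lemma single_eq (w : FreeMonoid X) (n : k) :
    (MonoidAlgebra.single w n : MA k X) = n • wd (FreeMonoid.toList w) := by
  unfold wd
  rw [MonoidAlgebra.smul_single]
  simp

lemma δ_mul (a b : MA k X) : δ (a * b) = L a (δ b) + R b (δ a) := by
  induction a using MonoidAlgebra.induction_linear with
  | zero =>
    have : L (0 : MA k X) (δ b) = 0 := by
      have := L_smul (0 : k) (0 : MA k X) (δ b)
      rwa [zero_smul, zero_smul] at this
    rw [zero_mul, map_zero, this, map_zero, zero_add]
  | add a a' h h' =>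
    rw [add_mul, map_add, h, h', map_add, map_add, L_add]
    abel
  | single w n =>
    induction b using MonoidAlgebra.induction_linear with
    | zero =>
      have : ∀ t : T k X, R (0 : MA k X) t = 0 := by
        intro t
        have := R_smul (0 : k) (0 : MA k X) t
        rwa [zero_smul, zero_smul] at this
      rw [mul_zero, map_zero, this, map_zero, zero_add]
    | add b b' h h' =>
      rw [mul_add, map_add, h, h', map_add, map_add, R_add]
      abel
    | single w' n' =>
      rw [single_eq, single_eq, smul_mul_smul_comm, ← wd_append, map_smul, δ_wd, dw_append,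
        L_smul, R_smul, map_smul, map_smul, map_smul, map_smul, δ_wd, δ_wd, smul_add, smul_smul,
        smul_smul, mul_comm n' n]

/-- `u ⊗ x v ↦ u x ⊗ v` -/
noncomputable def Φ₁ : T k X →ₗ[k] MA k X ⊗[k] MA k X :=
  TensorProduct.lift (LinearMap.flip (Finsupp.lsum k (fun x : X =>
    LinearMap.flip ((TensorProduct.mk k (MA k X) (MA k X)) ∘ₗ (LinearMap.mulRight k (lt x))))))

/-- `u ⊗ x v ↦ u ⊗ x v` -/
noncomputable def Φ₂ : T k X →ₗ[k] MA k X ⊗[k] MA k X :=
  LinearMap.lTensor _ (Finsupp.lsum k (fun x : X => LinearMap.mulLeft k (lt x)))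

lemma Φ₁_tmul (u v : MA k X) (x : X) :
    Φ₁ (u ⊗ₜ Finsupp.single x v) = (u * lt x) ⊗ₜ[k] v := by
  simp [Φ₁]

lemma Φ₂_tmul (u v : MA k X) (x : X) :
    Φ₂ (u ⊗ₜ Finsupp.single x v) = u ⊗ₜ[k] (lt x * v) := by
  simp [Φ₂]

/-- left multiplication on the first factor -/
noncomputable def L' (a : MA k X) : MA k X ⊗[k] MA k X →ₗ[k] MA k X ⊗[k] MA k X :=
  LinearMap.rTensor _ (LinearMap.mulLeft k a)

lemma Φ₁_L (a : MA k X) (t : T k X) : Φ₁ (L a t) = L' a (Φ₁ t) := by
  induction t using TensorProduct.induction_on with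
  | zero => simp
  | tmul u v =>
    rw [L_tmul]
    induction v using Finsupp.induction_linear with
    | zero => simp
    | add v v' h h' => rw [TensorProduct.tmul_add, map_add, h, h', TensorProduct.tmul_add, map_add,
        map_add]
    | single x v => rw [Φ₁_tmul, Φ₁_tmul, mul_assoc]; rfl
  | add s t hs ht => simp only [map_add, hs, ht]

lemma Φ₂_L (a : MA k X) (t : T k X) : Φ₂ (L a t) = L' a (Φ₂ t) := by
  induction t using TensorProduct.induction_on with
  | zero => simp
  | tmul u v =>
    rw [L_tmul]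
    induction v using Finsupp.induction_linear with
    | zero => simp
    | add v v' h h' => rw [TensorProduct.tmul_add, map_add, h, h', TensorProduct.tmul_add, map_add,
        map_add]
    | single x v => rw [Φ₂_tmul, Φ₂_tmul]; rfl
  | add s t hs ht => simp only [map_add, hs, ht]

lemma Φ_dw (l : List X) :
    Φ₁ (dw l : T k X) + 1 ⊗ₜ wd l = Φ₂ (dw l) + wd l ⊗ₜ 1 := by
  induction l with
  | nil => simp [dw, wd_nil]
  | cons x l ih =>
    have h := congrArg (L' (lt x)) ih
    rw [map_add, map_add, ← Φ₁_L, ← Φ₂_L] at h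
    have e1 : L' (lt x) ((1 : MA k X) ⊗ₜ[k] wd l) = lt x ⊗ₜ wd l := by
      change (lt x * 1) ⊗ₜ[k] wd l = _
      rw [mul_one]
    have e2 : L' (lt x) ((wd l : MA k X) ⊗ₜ[k] 1) = wd (x :: l) ⊗ₜ 1 := by
      rw [wd_cons]; rfl
    rw [e1, e2] at h
    rw [dw, map_add, map_add, Φ₁_tmul, Φ₂_tmul, one_mul, ← wd_cons]
    calc lt x ⊗ₜ[k] wd l + Φ₁ (L (lt x) (dw l)) + 1 ⊗ₜ[k] wd (x :: l)
        = (Φ₁ (L (lt x) (dw l)) + lt x ⊗ₜ[k] wd l) + 1 ⊗ₜ[k] wd (x :: l) := by abel
      _ = _ := by rw [h]; abel

lemma Φ_δ (a : MA k X) : Φ₁ (δ a) + 1 ⊗ₜ a = Φ₂ (δ a) + a ⊗ₜ 1 := by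
  induction a using MonoidAlgebra.induction_linear with
  | zero => simp
  | add a a' h h' =>
    rw [map_add, map_add, map_add, TensorProduct.tmul_add, TensorProduct.add_tmul]
    calc Φ₁ (δ a) + Φ₁ (δ a') + (1 ⊗ₜ[k] a + 1 ⊗ₜ[k] a')
        = (Φ₁ (δ a) + 1 ⊗ₜ[k] a) + (Φ₁ (δ a') + 1 ⊗ₜ[k] a') := by abel
      _ = _ := by rw [h, h']; abel
  | single w n =>
    rw [single_eq, map_smul, map_smul, map_smul, δ_wd, TensorProduct.tmul_smul, ← smul_add, Φ_dw,
      smul_add, TensorProduct.smul_tmul']

/-! ### General form of the two maps -/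

section general

variable {M M' N N' : Type} [AddCommGroup M] [Module k M] [AddCommGroup M'] [Module k M']
  [AddCommGroup N] [Module k N] [AddCommGroup N'] [Module k N']

/-- `m ⊗ x n ↦ ρ x m ⊗ n` -/
noncomputable def F1 (ρ : X → M →ₗ[k] M) : M ⊗[k] (X →₀ N) →ₗ[k] M ⊗[k] N :=
  TensorProduct.lift (LinearMap.flip (Finsupp.lsum k (fun x : X =>
    LinearMap.flip ((TensorProduct.mk k M N) ∘ₗ ρ x))))

/-- `m ⊗ x n ↦ m ⊗ l x n` -/
noncomputable def F2 (l : X → N →ₗ[k] N) : M ⊗[k] (X →₀ N) →ₗ[k] M ⊗[k] N :=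
  LinearMap.lTensor _ (Finsupp.lsum k l)

lemma F1_tmul (ρ : X → M →ₗ[k] M) (m : M) (x : X) (n : N) :
    F1 ρ (m ⊗ₜ Finsupp.single x n) = ρ x m ⊗ₜ[k] n := by
  simp [F1]

lemma F2_tmul (l : X → N →ₗ[k] N) (m : M) (x : X) (n : N) :
    F2 l (m ⊗ₜ Finsupp.single x n) = m ⊗ₜ[k] l x n := by
  simp [F2]

lemma nat1 (ρ : X → M →ₗ[k] M) (ρ' : X → M' →ₗ[k] M') (f : M →ₗ[k] M') (g : N →ₗ[k] N')
    (hf : ∀ x m, f (ρ x m) = ρ' x (f m)) (t : M ⊗[k] (X →₀ N)) :
    F1 ρ' (TensorProduct.map f (Finsupp.mapRange.linearMap g) t) =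
      TensorProduct.map f g (F1 ρ t) := by
  induction t using TensorProduct.induction_on with
  | zero => simp
  | tmul u v =>
    induction v using Finsupp.induction_linear with
    | zero => simp
    | add v v' h h' => rw [TensorProduct.tmul_add, map_add, map_add, h, h', map_add, map_add]
    | single x v =>
      rw [TensorProduct.map_tmul, Finsupp.mapRange.linearMap_apply, Finsupp.mapRange_single,
        F1_tmul, F1_tmul, TensorProduct.map_tmul, hf]
  | add s t hs ht => simp only [map_add, hs, ht]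

lemma nat2 (l : X → N →ₗ[k] N) (l' : X → N' →ₗ[k] N') (f : M →ₗ[k] M') (g : N →ₗ[k] N')
    (hg : ∀ x n, g (l x n) = l' x (g n)) (t : M ⊗[k] (X →₀ N)) :
    F2 l' (TensorProduct.map f (Finsupp.mapRange.linearMap g) t) =
      TensorProduct.map f g (F2 l t) := by
  induction t using TensorProduct.induction_on with
  | zero => simp
  | tmul u v =>
    induction v using Finsupp.induction_linear with
    | zero => simp
    | add v v' h h' => rw [TensorProduct.tmul_add, map_add, map_add, h, h', map_add, map_add]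
    | single x v =>
      rw [TensorProduct.map_tmul, Finsupp.mapRange.linearMap_apply, Finsupp.mapRange_single,
        F2_tmul, F2_tmul, TensorProduct.map_tmul, hg]
  | add s t hs ht => simp only [map_add, hs, ht]

end general

lemma Φ₁_eq : (Φ₁ : T k X →ₗ[k] _) = F1 (fun x => LinearMap.mulRight k (lt x)) := rfl

lemma Φ₂_eq : (Φ₂ : T k X →ₗ[k] _) = F2 (fun x => LinearMap.mulLeft k (lt x)) := rfl

lemma flat_of_sat [IsDomain k] [IsPrincipalIdealRing k] {M : Type} [AddCommGroup M] [Module k M]
    (K : Submodule k M) (h : Sat K) : Module.Flat k (M ⧸ K) := by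
  rw [Module.Flat.flat_iff_torsion_eq_bot_of_isBezout]
  rw [eq_bot_iff]
  rintro z ⟨⟨r, hr⟩, hz⟩
  obtain ⟨a, rfl⟩ := K.mkQ_surjective z
  have hr0 : r ≠ 0 := nonZeroDivisors.ne_zero hr
  have h1 : r • K.mkQ a = 0 := hz
  rw [← map_smul, Submodule.mkQ_apply, Submodule.Quotient.mk_eq_zero] at h1
  rw [Submodule.mem_bot, Submodule.mkQ_apply, Submodule.Quotient.mk_eq_zero]
  exact h r a hr0 h1

theorem sat_mul [IsDomain k] [IsPrincipalIdealRing k] (I J : Submodule k (MA k X))
    (hI : ∀ a ∈ I, ∀ b, a * b ∈ I) (hJ : ∀ a ∈ J, ∀ b, b * a ∈ J) (sI : Sat I) (sJ : Sat J) :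
    Sat (I * J) := by
  intro m f hm hmf
  have hfJ : f ∈ J := by
    apply sJ m f hm
    have : I * J ≤ J := Submodule.mul_le.2 fun i _ j hj => hJ j hj i
    exact this hmf
  have hfI : f ∈ I := by
    apply sI m f hm
    have : I * J ≤ I := Submodule.mul_le.2 fun i hi j _ => hI i hi j
    exact this hmf
  have : Module.Flat k (MA k X ⧸ I) := flat_of_sat I sI
  have : Module.Flat k (MA k X ⧸ J) := flat_of_sat J sJ
  set qW : (X →₀ MA k X) →ₗ[k] (X →₀ (MA k X ⧸ J)) := Finsupp.mapRange.linearMap J.mkQ with hqW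
  -- step 1
  have step1 : ∀ c ∈ I * J, TensorProduct.map I.mkQ qW (δ c) = 0 := by
    intro c hc
    induction hc using Submodule.mul_induction_on' with
    | mem_mul_mem i hi j hj =>
      rw [δ_mul, map_add]
      have h1 : ∀ t : T k X, TensorProduct.map I.mkQ qW (L i t) = 0 := by
        intro t
        induction t using TensorProduct.induction_on with
        | zero => simp
        | tmul u v =>
          rw [L_tmul, TensorProduct.map_tmul]
          have : I.mkQ (i * u) = 0 := by
            rw [Submodule.mkQ_apply, Submodule.Quotient.mk_eq_zero]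
            exact hI i hi u
          rw [this, TensorProduct.zero_tmul]
        | add s t hs ht => rw [map_add, map_add, hs, ht, add_zero]
      have h2 : ∀ t : T k X, TensorProduct.map I.mkQ qW (R j t) = 0 := by
        intro t
        induction t using TensorProduct.induction_on with
        | zero => simp
        | tmul u v =>
          rw [R_tmul, TensorProduct.map_tmul]
          have : qW (mr j v) = 0 := by
            ext1 x
            rw [hqW, Finsupp.mapRange.linearMap_apply, Finsupp.mapRange_apply, mr_apply,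
              Submodule.mkQ_apply, Finsupp.zero_apply, Submodule.Quotient.mk_eq_zero]
            exact hJ j hj _
          rw [this, TensorProduct.tmul_zero]
        | add s t hs ht => rw [map_add, map_add, hs, ht, add_zero]
      rw [h1, h2, add_zero]
    | add a _ b _ ha hb => rw [map_add, map_add, ha, hb, add_zero]
  -- step 2
  have step2 : TensorProduct.map I.mkQ qW (δ f) = 0 := by
    have h1 := step1 _ hmf
    rw [map_smul, map_smul] at h1
    set z := TensorProduct.map I.mkQ qW (δ f)
    have hinj : Function.Injective (m • (LinearMap.id : (X →₀ (MA k X ⧸ J)) →ₗ[k] _)) := by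
      rw [← LinearMap.ker_eq_bot, LinearMap.ker_eq_bot']
      intro w hw
      ext1 x
      obtain ⟨a, ha⟩ := J.mkQ_surjective (w x)
      have h2 : m • w x = 0 := by
        have := DFunLike.congr_fun hw x
        simpa using this
      rw [← ha, ← map_smul, Submodule.mkQ_apply, Submodule.Quotient.mk_eq_zero] at h2
      rw [← ha, Submodule.mkQ_apply, Finsupp.zero_apply, Submodule.Quotient.mk_eq_zero]
      exact sJ m a hm h2
    have h3 := Module.Flat.lTensor_preserves_injective_linearMap (M := MA k X ⧸ I) _ hinj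
    apply h3
    rw [map_zero, LinearMap.lTensor_smul, LinearMap.smul_apply, LinearMap.lTensor_id,
      LinearMap.id_apply]
    exact h1
  -- step 3
  have hex : TensorProduct.map LinearMap.id qW (δ f) ∈
      LinearMap.ker (LinearMap.rTensor (X →₀ (MA k X ⧸ J)) I.mkQ) := by
    rw [LinearMap.mem_ker]
    have : LinearMap.rTensor (X →₀ (MA k X ⧸ J)) I.mkQ (TensorProduct.map LinearMap.id qW (δ f)) =
        TensorProduct.map I.mkQ qW (δ f) := by
      unfold LinearMap.rTensor
      rw [← LinearMap.comp_apply, ← TensorProduct.map_comp, LinearMap.comp_id, LinearMap.id_comp]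
    rw [this, step2]
  rw [rTensor_mkQ] at hex
  obtain ⟨g, hg⟩ := hex
  -- step 4
  have hlt : ∀ x : X, J ≤ J.comap (LinearMap.mulLeft k (lt x)) := fun x a ha => hJ a ha _
  set lQ : X → (MA k X ⧸ J) →ₗ[k] (MA k X ⧸ J) := fun x => J.mapQ J (LinearMap.mulLeft k (lt x))
    (hlt x) with hlQ
  set rI : X → I →ₗ[k] I := fun x => (LinearMap.mulRight k (lt x)).restrict
    (fun a ha => hI a ha _) with hrI
  let rA : X → MA k X →ₗ[k] MA k X := fun x => LinearMap.mulRight k (lt x)
  let lA : X → MA k X →ₗ[k] MA k X := fun x => LinearMap.mulLeft k (lt x)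
  have n1 : F1 rA (TensorProduct.map LinearMap.id qW (δ f)) =
      TensorProduct.map LinearMap.id J.mkQ (F1 rA (δ f)) :=
    nat1 rA rA LinearMap.id J.mkQ (fun _ _ => rfl) (δ f)
  have n2 : F2 lQ (TensorProduct.map LinearMap.id qW (δ f)) =
      TensorProduct.map LinearMap.id J.mkQ (F2 lA (δ f)) :=
    nat2 lA lQ LinearMap.id J.mkQ (fun _ _ => rfl) (δ f)
  have hΦ : F1 rA (TensorProduct.map LinearMap.id qW (δ f)) + 1 ⊗ₜ J.mkQ f =
      F2 lQ (TensorProduct.map LinearMap.id qW (δ f)) + f ⊗ₜ J.mkQ 1 := by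
    rw [n1, n2]
    have h := congrArg (TensorProduct.map LinearMap.id J.mkQ) (Φ_δ f)
    rw [map_add, map_add, TensorProduct.map_tmul, TensorProduct.map_tmul] at h
    exact h
  have hf0 : J.mkQ f = 0 := by
    rw [Submodule.mkQ_apply, Submodule.Quotient.mk_eq_zero]; exact hfJ
  rw [hf0, TensorProduct.tmul_zero, add_zero, ← hg] at hΦ
  have e1 := nat1 (N := MA k X ⧸ J) rI rA I.subtype LinearMap.id (fun _ _ => rfl) g
  have e2 := nat2 (N := MA k X ⧸ J) lQ lQ I.subtype LinearMap.id (fun _ _ => rfl) g
  have hid : (Finsupp.mapRange.linearMap (LinearMap.id : (MA k X ⧸ J) →ₗ[k] _) :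
      (X →₀ (MA k X ⧸ J)) →ₗ[k] _) = LinearMap.id := by
    ext; simp
  rw [hid] at e1 e2
  have hΦ' : LinearMap.rTensor (MA k X ⧸ J) I.subtype (F1 rI g) =
      LinearMap.rTensor (MA k X ⧸ J) I.subtype (F2 lQ g + (⟨f, hfI⟩ : I) ⊗ₜ J.mkQ 1) := by
    rw [map_add]
    refine Eq.trans e1.symm (hΦ.trans ?_)
    have e3 : F2 lQ (LinearMap.rTensor (X →₀ (MA k X ⧸ J)) I.subtype g) =
        LinearMap.rTensor (MA k X ⧸ J) I.subtype (F2 lQ g) := e2
    rw [e3]
    rfl
  have hinj := Module.Flat.rTensor_preserves_injective_linearMap (M := MA k X ⧸ J) I.subtype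
    (Submodule.subtype_injective I)
  have key := hinj hΦ'
  -- step 5
  have hΨ : ∀ i : I, J ≤ LinearMap.ker ((I * J).mkQ ∘ₗ LinearMap.mulLeft k (i : MA k X)) := by
    intro i j hj
    rw [LinearMap.mem_ker, LinearMap.comp_apply, Submodule.mkQ_apply,
      Submodule.Quotient.mk_eq_zero]
    exact Submodule.mul_mem_mul i.2 hj
  let Ψ : I ⊗[k] (MA k X ⧸ J) →ₗ[k] MA k X ⧸ (I * J) := TensorProduct.lift
    { toFun := fun i => J.liftQ ((I * J).mkQ ∘ₗ LinearMap.mulLeft k (i : MA k X)) (hΨ i)
      map_add' := by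
        intro i i'
        apply Submodule.linearMap_qext
        refine LinearMap.ext fun a => ?_
        change (I * J).mkQ ((i + i' : MA k X) * a) =
          (I * J).mkQ ((i : MA k X) * a) + (I * J).mkQ ((i' : MA k X) * a)
        rw [add_mul, map_add]
      map_smul' := by
        intro n i
        apply Submodule.linearMap_qext
        refine LinearMap.ext fun a => ?_
        change (I * J).mkQ ((n • (i : MA k X)) * a) = n • (I * J).mkQ ((i : MA k X) * a)
        rw [smul_mul_assoc, map_smul] }
  have hΨt : ∀ (i : I) (a : MA k X), Ψ (i ⊗ₜ J.mkQ a) = (I * J).mkQ (i * a) := fun i a => rfl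
  have h12 : ∀ t : I ⊗[k] (X →₀ (MA k X ⧸ J)), Ψ (F1 rI t) = Ψ (F2 lQ t) := by
    intro t
    induction t using TensorProduct.induction_on with
    | zero => simp
    | tmul u v =>
      induction v using Finsupp.induction_linear with
      | zero => simp
      | add v v' h h' => rw [TensorProduct.tmul_add, map_add, map_add, h, h', map_add, map_add]
      | single x v =>
        obtain ⟨a, rfl⟩ := J.mkQ_surjective v
        rw [F1_tmul, F2_tmul]
        have : lQ x (J.mkQ a) = J.mkQ (lt x * a) := rfl
        rw [this, hΨt, hΨt, ← mul_assoc]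
        rfl
    | add s t hs ht => rw [map_add, map_add, hs, ht, map_add, map_add]
  have h5 := congrArg Ψ key
  rw [map_add, h12, hΨt] at h5
  have h6 : (I * J).mkQ (f * 1) = 0 := by
    have := sub_eq_zero.2 h5
    simpa using this
  rw [mul_one, Submodule.mkQ_apply, Submodule.Quotient.mk_eq_zero] at h6
  exact h6

end Pool.TF48.Prod
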