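import Pool.Agent.Helper48.TF.AML
import Pool.Agent.Helper48.TF.FIN

/-!
# The quotient of a PI ring by the sum of its nilpotent ideals
-/

set_option autoImplicit false

namespace Pool.TF48

/-- the additive subgroup `N` of `R` is a two-sided ideal -/
def IsIdl {R : Type} [NonUnitalRing R] (N : AddSubgroup R) : Prop :=
  ∀ a ∈ N, ∀ b : R, a * b ∈ N ∧ b * a ∈ N

/-- `N` is a nilpotent two-sided ideal of `R` -/
def NilIdl {R : Type} [NonUnitalRing R] (N : AddSubgroup R) : Prop :=
  IsIdl N ∧ ∃ m : ℕ, ∀ a : Fin m → R, (∀ i, a i ∈ N) →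
    (List.ofFn (fun i => (a i : Unitization ℤ R))).prod = 0

lemma factor {R R0 R' : Type} [NonUnitalRing R] [NonUnitalRing R0] [NonUnitalRing R']
    (ρ : R →ₙ+* R0) (hρ : Function.Surjective ρ) (π : R →ₙ+* R') (h : ∀ a, ρ a = 0 → π a = 0) :
    ∃ g : R0 →ₙ+* R', ∀ a, g (ρ a) = π a := by
  have key : ∀ a b, ρ a = ρ b → π a = π b := by
    intro a b hab
    rw [← sub_eq_zero, ← map_sub]
    apply h
    rw [map_sub, hab, sub_self]
  choose s hs using hρ
  refine ⟨{ toFun := fun x => π (s x)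
            map_zero' := h _ (hs 0)
            map_add' := fun x y => ?_
            map_mul' := fun x y => ?_ }, fun a => key _ _ (hs _)⟩
  · rw [← map_mul]; apply key; rw [map_mul, hs, hs, hs]
  · rw [← map_add]; apply key; rw [map_add, hs, hs, hs]

/-- images of good rings are good -/
theorem good_surj {R R' : Type} [NonUnitalRing R] [NonUnitalRing R'] (h : Good R) (π : R →ₙ+* R')
    (hπ : Function.Surjective π) : Good R' := by
  obtain ⟨S, _, h1, h2, φ, hφ⟩ := h
  exact ⟨S, inferInstance, h1, h2, π.comp φ, hπ.comp hφ⟩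

/-- subrings of good rings are good -/
theorem good_sub {R R' : Type} [NonUnitalRing R] [NonUnitalRing R'] (h : Good R') (i : R →ₙ+* R')
    (hi : Function.Injective i) : Good R := by
  obtain ⟨S, _, h1, h2, φ, hφ⟩ := h
  let T : NonUnitalSubring S :=
    { carrier := {s | ∃ r, i r = φ s}
      add_mem' := by
        rintro s t ⟨r, hr⟩ ⟨q, hq⟩
        exact ⟨r + q, by rw [map_add, map_add, hr, hq]⟩
      zero_mem' := ⟨0, by rw [map_zero, map_zero]⟩
      mul_mem' := by
        rintro s t ⟨r, hr⟩ ⟨q, hq⟩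
        exact ⟨r * q, by rw [map_mul, map_mul, hr, hq]⟩
      neg_mem' := by
        rintro s ⟨r, hr⟩
        exact ⟨-r, by rw [map_neg, map_neg, hr]⟩ }
  choose g hg using fun s : T => (s.2 : ∃ r, i r = φ s)
  let j : T →ₙ+* S :=
    { toFun := fun t => t.1
      map_zero' := rfl
      map_add' := fun _ _ => rfl
      map_mul' := fun _ _ => rfl }
  refine ⟨T, inferInstance, ?_, ?_, ?_⟩
  · obtain ⟨f, hf1, hf2, hf⟩ := h1
    refine ⟨f, hf1, hf2, fun r => ?_⟩
    have h3 := mapU_ev j r f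
    rw [hf] at h3
    have h4 : (ev r f).fst = 0 := by rw [fst_ev, hf1]
    rw [eq_inr h4, mapU_inr] at h3
    have h5 : j (ev r f).snd = 0 := Unitization.inr_injective (by rw [h3, Unitization.inr_zero])
    have h6 : (ev r f).snd = 0 := Subtype.val_injective h5
    rw [eq_inr h4, h6, Unitization.inr_zero]
  · intro k s hk hs
    apply Subtype.val_injective
    have h3 := congrArg j hs
    rw [map_nsmul, map_zero] at h3
    exact h2 k _ hk h3
  · refine ⟨{ toFun := g
              map_zero' := hi (by rw [hg, map_zero]; exact map_zero φ)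
              map_add' := fun s t => hi (by rw [hg, map_add, hg, hg]; exact map_add φ _ _)
              map_mul' := fun s t => hi (by rw [hg, map_mul, hg, hg]; exact map_mul φ _ _) }, ?_⟩
    intro r
    obtain ⟨s, hs⟩ := hφ (i r)
    exact ⟨⟨s, ⟨r, hs.symm⟩⟩, hi ((hg _).trans hs)⟩

lemma le_of_nilp {A : Type} [Ring A] (L J : Submodule ℤ A)
    (hL : ∀ a : A, (∀ b, a * b * a ∈ L) → a ∈ L) (hJl : ⊤ * J ≤ J) (hJ : ∃ k, J ^ k = ⊥) :
    J ≤ L := by
  obtain ⟨k, hk⟩ := hJ
  have key : ∀ e : ℕ, J ^ (1 + e) ≤ L → J ≤ L := by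
    intro e
    induction e with
    | zero => intro h; rwa [add_zero, pow_one] at h
    | succ e ih =>
      intro h
      apply ih
      intro a ha
      apply hL
      intro b
      apply h
      have h1 : a * b * a ∈ (J ^ (1 + e) * ⊤) * J ^ (1 + e) :=
        Submodule.mul_mem_mul (Submodule.mul_mem_mul ha trivial) ha
      have h2 : (J ^ (1 + e) * ⊤) * J ^ (1 + e) ≤ J ^ (1 + (e + 1)) := by
        have e1 : J ^ (1 + e) = J * J ^ e := by rw [pow_add, pow_one]
        have e2 : J ^ (1 + e) * ⊤ * J ^ (1 + e) = J ^ (1 + e) * (⊤ * J) * J ^ e := by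
          conv_lhs => rw [show J ^ (1 + e) * ⊤ * J ^ (1 + e) =
            J ^ (1 + e) * (⊤ * J ^ (1 + e)) by rw [mul_assoc], e1]
          rw [e1]
          simp only [mul_assoc]
        rw [e2]
        refine (mul_le_mul' (mul_le_mul' le_rfl hJl) le_rfl).trans ?_
        rcases Nat.eq_zero_or_pos e with rfl | he
        · rw [pow_zero, mul_one, ← pow_succ]
        · have hJJ : ∀ n, J ^ (n + 1) * J ≤ J ^ (n + 1) := by
            intro n
            rw [pow_succ, mul_assoc]
            exact mul_le_mul' le_rfl ((mul_le_mul' le_top le_rfl).trans hJl)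
          have hJn : ∀ n m, J ^ (n + 1) * J ^ m ≤ J ^ (n + 1) := by
            intro n m
            induction m with
            | zero => rw [pow_zero, mul_one]
            | succ m ih =>
              rw [pow_succ J m, ← mul_assoc]
              exact (mul_le_mul' ih le_rfl).trans (hJJ n)
          rw [← pow_succ]
          have := hJn (1 + e) e
          rw [show 1 + (e + 1) = 1 + e + 1 by ring]
          exact this
      exact h2 h1
  apply key k
  rw [pow_add, hk]
  simp

section aux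

variable {R A : Type} [NonUnitalRing R] [Ring A] (κ : R →ₙ+* A)

/-- the image of `R` -/
def Ik : Submodule ℤ A := (AddMonoidHom.range κ.toAddMonoidHom).toIntSubmodule

lemma mem_Ik (x : A) : x ∈ Ik κ ↔ ∃ r, κ r = x := Iff.rfl

/-- the elements of `R` in nilpotent ideals of `A` -/
def Wk : AddSubgroup R where
  carrier := {a | ∃ J : Submodule ℤ A, ⊤ * J ≤ J ∧ J * ⊤ ≤ J ∧ (∃ k, J ^ k = ⊥) ∧ κ a ∈ J}
  add_mem' := by
    rintro a b ⟨J, h1, h2, ⟨k, hk⟩, h3⟩ ⟨J', h1', h2', ⟨k', hk'⟩, h3'⟩
    refine ⟨J ⊔ J', ?_, ?_, ⟨(k + 1) * k', ?_⟩, ?_⟩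
    · rw [Submodule.mul_sup]; exact sup_le_sup h1 h1'
    · rw [Submodule.sup_mul]; exact sup_le_sup h2 h2'
    · have h4 : (J ⊔ J') ^ (k + 1) ≤ J' := by
        refine (AML.sup_pow J J' h1' h2' k).trans (sup_le ?_ le_rfl)
        rw [pow_succ, hk]
        simp
      rw [pow_mul, eq_bot_iff, ← hk']
      exact pow_le_pow_left' h4 k'
    · rw [map_add]
      exact Submodule.add_mem_sup h3 h3'
  zero_mem' := ⟨⊥, by simp, by simp, ⟨1, by simp⟩, by simp⟩
  neg_mem' := by
    rintro a ⟨J, h1, h2, h3, h4⟩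
    refine ⟨J, h1, h2, h3, ?_⟩
    rw [map_neg]
    exact Submodule.neg_mem _ h4

lemma mem_Wk (a : R) : a ∈ Wk κ ↔ ∃ J : Submodule ℤ A, ⊤ * J ≤ J ∧ J * ⊤ ≤ J ∧
    (∃ k, J ^ k = ⊥) ∧ κ a ∈ J := Iff.rfl

lemma Wk_id : ∀ a ∈ Wk κ, ∀ b : R, a * b ∈ Wk κ ∧ b * a ∈ Wk κ := by
  rintro a ⟨J, h1, h2, h3, h4⟩ b
  constructor
  · refine ⟨J, h1, h2, h3, ?_⟩
    rw [map_mul]
    exact h2 (Submodule.mul_mem_mul h4 trivial)
  · refine ⟨J, h1, h2, h3, ?_⟩
    rw [map_mul]
    exact h1 (Submodule.mul_mem_mul trivial h4)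

theorem wed_aux (hLNR : S_LNR) (hdec : ∀ b : A, ∃ (n : ℤ) (r : R), b = n • (1 : A) + κ r)
    (d : ℕ) (c : Equiv.Perm (Fin (d + 1)) → ℤ) (hc1 : c 1 = 1)
    (hc : ∀ x : Fin (d + 1) → R, ∑ σ, c σ • (List.ofFn (fun i => κ (x (σ i)))).prod = 0)
    (hR : MI d R) (R' : Type) [NonUnitalRing R'] (π : R →ₙ+* R') (hsurj : Function.Surjective π)
    (hπ : ∀ N : AddSubgroup R, IsIdl N → (∃ m : ℕ, ∀ a : Fin m → R, (∀ i, a i ∈ N) →
      (List.ofFn (fun i => κ (a i))).prod = 0) → ∀ a ∈ N, π a = 0) : Good R' := by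
  obtain ⟨L, hLl, hLr, hLn, hLs⟩ := hLNR A
  have hLml : ∀ a ∈ L, ∀ b, b * a ∈ L := fun a ha b => hLl (Submodule.mul_mem_mul trivial ha)
  have hLmr : ∀ a ∈ L, ∀ b, a * b ∈ L := fun a ha b => hLr (Submodule.mul_mem_mul ha trivial)
  have hIl : (⊤ : Submodule ℤ A) * Ik κ ≤ Ik κ := by
    rw [Submodule.mul_le]
    rintro x _ _ ⟨y, rfl⟩
    obtain ⟨n, r, rfl⟩ := hdec x
    refine ⟨n • y + r * y, ?_⟩
    change κ (n • y + r * y) = (n • (1 : A) + κ r) * κ y
    rw [map_add, map_zsmul, map_mul, add_mul, smul_mul_assoc, one_mul]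
  have hIr : Ik κ * (⊤ : Submodule ℤ A) ≤ Ik κ := by
    rw [Submodule.mul_le]
    rintro _ ⟨y, rfl⟩ x _
    obtain ⟨n, r, rfl⟩ := hdec x
    refine ⟨n • y + y * r, ?_⟩
    change κ (n • y + y * r) = κ y * (n • (1 : A) + κ r)
    rw [map_add, map_zsmul, map_mul, mul_add, mul_smul_comm, mul_one]
  have hWL : ∀ a ∈ Wk κ, κ a ∈ L := by
    rintro a ⟨J, h1, h2, h3, h4⟩
    exact le_of_nilp L J hLs h1 h3 h4
  -- `R / W`
  set ρ := mkCon (idCon (Wk κ) (Wk_id κ)) with hρ
  have hρ0 : ∀ a, ρ a = 0 ↔ a ∈ Wk κ := mk_idCon _ _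
  have hρs : Function.Surjective ρ := mkCon_surj _
  let L' : AddSubgroup (idCon (Wk κ) (Wk_id κ)).Quotient :=
    { carrier := {x | ∀ a, ρ a = x → κ a ∈ L}
      add_mem' := by
        intro x y hx hy a ha
        obtain ⟨b, rfl⟩ := hρs x
        obtain ⟨c, rfl⟩ := hρs y
        have h1 : a - b - c ∈ Wk κ := by
          rw [← hρ0, map_sub, map_sub, ha]
          abel
        have h2 := hWL _ h1
        have h3 : κ a = κ (a - b - c) + (κ b + κ c) := by
          rw [← map_add, ← map_add]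
          congr 1
          abel
        rw [h3]
        exact L.add_mem h2 (L.add_mem (hx b rfl) (hy c rfl))
      zero_mem' := fun a ha => hWL a ((hρ0 a).1 ha)
      neg_mem' := by
        intro x hx a ha
        have h1 := hx (-a) (by rw [map_neg, ha, neg_neg])
        rw [map_neg] at h1
        exact neg_mem_iff.1 h1 }
  have hL'mem : ∀ a : R, ρ a ∈ L' ↔ κ a ∈ L := by
    intro a
    constructor
    · intro h; exact h a rfl
    · intro h b hb
      have h1 : b - a ∈ Wk κ := by rw [← hρ0, map_sub, hb, sub_self]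
      have h3 : κ b = κ (b - a) + κ a := by
        rw [← map_add]
        congr 1
        abel
      rw [h3]
      exact L.add_mem (hWL _ h1) h
  have hL'id : ∀ a ∈ L', ∀ b, a * b ∈ L' ∧ b * a ∈ L' := by
    intro x hx y
    obtain ⟨a, rfl⟩ := hρs x
    obtain ⟨b, rfl⟩ := hρs y
    rw [hL'mem] at hx
    rw [← map_mul, ← map_mul, hL'mem, hL'mem, map_mul, map_mul]
    exact ⟨hLmr _ hx _, hLml _ hx _⟩
  have hmonk : ∀ (n : ℕ) (x : Fin (n + 1) → R), (List.ofFn (fun i => κ (x i))).prod =
      κ (H41.mon n x) := by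
    intro n x
    induction n with
    | zero => simp [H41.mon]
    | succ n ih => rw [List.ofFn_succ, List.prod_cons, ih, H41.mon_succ, map_mul]
  have hgood : Good (idCon (Wk κ) (Wk_id κ)).Quotient := by
    apply good_of_semiprime (idCon (Wk κ) (Wk_id κ)).Quotient (idCon L' hL'id).Quotient
      (mkCon (idCon L' hL'id)) (mkCon_surj _) d (mi_surj ρ hρs hR) _ d
    · intro x hx
      have hx' : ∀ i, x i ∈ L' := fun i => (mk_idCon L' hL'id _).1 (hx i)
      choose a ha using fun i => hρs (x i)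
      obtain rfl : (fun i => ρ (a i)) = x := funext ha
      have hmem : ∀ i, κ (a i) ∈ L := fun i => (hL'mem _).1 (hx' i)
      set M : Submodule ℤ A := Submodule.span ℤ (Set.range (fun i => κ (a i))) with hM
      have hMfg : M.FG := Submodule.fg_span (Set.finite_range _)
      have hML : M ≤ L := by
        rw [hM, Submodule.span_le]
        rintro _ ⟨i, rfl⟩
        exact hmem i
      have hMI : M ≤ Ik κ := by
        rw [hM, Submodule.span_le]
        rintro _ ⟨i, rfl⟩
        exact ⟨a i, rfl⟩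
      obtain ⟨J, h1, h2, h3, h4⟩ := aml A (Ik κ) hIl hIr d c hc1 (by
        intro y hy
        choose z hz using hy
        have hz' : (fun i => κ (z i)) = y := funext hz
        rw [← hz']
        exact hc z) M hMI (hLn M hMfg hML)
      have h5 : (List.ofFn (fun i => κ (a i))).prod ∈ J := by
        apply h4
        have h6 := AML.prod_mem (d + 1) (fun _ => M) (fun i => κ (a i))
          (fun i => Submodule.subset_span ⟨i, rfl⟩)
        rwa [List.ofFn_const, List.prod_replicate] at h6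
      rw [hmonk] at h5
      have h7 : H41.mon d a ∈ Wk κ := ⟨J, h1, h2, h3, h5⟩
      rw [← hρ0, H41.mon_map] at h7
      rw [H41.mon_coe, h7, Unitization.inr_zero]
    · intro x hx
      obtain ⟨y, rfl⟩ := mkCon_surj (idCon L' hL'id) x
      obtain ⟨a, rfl⟩ := hρs y
      rw [mk_idCon, hL'mem]
      have h1 : ∀ b : R, κ a * κ b * κ a ∈ L := by
        intro b
        have := hx (mkCon (idCon L' hL'id) (ρ b))
        rw [← map_mul, ← map_mul, mk_idCon, ← map_mul, ← map_mul, hL'mem, map_mul,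
          map_mul] at this
        exact this
      have h2 : κ a * κ a ∈ L := by
        apply hLs
        intro b
        obtain ⟨n, r, rfl⟩ := hdec b
        have e1 : κ a * κ a * (n • (1 : A) + κ r) * (κ a * κ a) =
            n • (κ a * κ (a * a) * κ a) + κ a * (κ a * κ r * κ a) * κ a := by
          rw [mul_add, add_mul, mul_smul_comm, smul_mul_assoc, mul_one, map_mul]
          simp only [mul_assoc]
        rw [e1]
        exact L.add_mem (L.smul_mem _ (h1 _)) (hLmr _ (hLml _ (h1 _) _) _)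
      apply hLs
      intro b
      obtain ⟨n, r, rfl⟩ := hdec b
      rw [mul_add, add_mul, mul_smul_comm, smul_mul_assoc, mul_one]
      exact L.add_mem (L.smul_mem _ h2) (h1 _)
  -- the map to `R'`
  obtain ⟨g, hg⟩ := factor ρ hρs π (by
    intro a ha
    rw [hρ0] at ha
    obtain ⟨J, h1, h2, ⟨k, hk⟩, h4⟩ := ha
    apply hπ (J.toAddSubgroup.comap κ.toAddMonoidHom) _ _ a h4
    · intro x hx y
      constructor
      · change κ (x * y) ∈ J
        rw [map_mul]
        exact h2 (Submodule.mul_mem_mul hx trivial)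
      · change κ (y * x) ∈ J
        rw [map_mul]
        exact h1 (Submodule.mul_mem_mul trivial hx)
    · refine ⟨k, ?_⟩
      intro x hx
      have h6 := AML.prod_mem k (fun _ => J) (fun i => κ (x i)) hx
      rw [List.ofFn_const, List.prod_replicate, hk] at h6
      exact h6)
  apply good_surj hgood g
  intro y
  obtain ⟨a, rfl⟩ := hsurj y
  exact ⟨ρ a, hg a⟩

end aux

/-- the embedding -/
def inrH (R : Type) [NonUnitalRing R] : R →ₙ+* Unitization ℤ R where
  toFun r := (r : Unitization ℤ R)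
  map_zero' := Unitization.inr_zero _
  map_add' := fun _ _ => Unitization.inr_add _ _ _
  map_mul' := fun _ _ => Unitization.inr_mul _ _ _

/-- the quotient of a PI ring by the sum of its nilpotent ideals is good -/
theorem wed (hLNR : S_LNR) (d : ℕ) (R : Type) [NonUnitalRing R] (hR : MI d R) (R' : Type)
    [NonUnitalRing R'] (π : R →ₙ+* R') (hsurj : Function.Surjective π)
    (hπ : ∀ N : AddSubgroup R, NilIdl N → ∀ a ∈ N, π a = 0) : Good R' := by
  have hR' := hR
  obtain ⟨c, hc1, hc⟩ := hR'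
  have key := @wed_aux R (Unitization ℤ R) _ _ (inrH R) hLNR
  refine key ?_ d c hc1 hc hR R' π hsurj (fun N h1 h2 => hπ N ⟨h1, h2⟩)
  intro b
  refine ⟨b.fst, b.snd, ?_⟩
  let f1 : Unitization ℤ R →+ ℤ :=
    { toFun := fun x => x.fst
      map_zero' := rfl
      map_add' := fun _ _ => rfl }
  let f2 : Unitization ℤ R →+ R :=
    { toFun := fun x => x.snd
      map_zero' := rfl
      map_add' := fun _ _ => rfl }
  have h1 : (b.fst • (1 : Unitization ℤ R)).fst = b.fst := by
    have h := map_zsmul f1 b.fst 1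
    refine h.trans ?_
    change b.fst • (1 : ℤ) = b.fst
    simp
  have h2 : (b.fst • (1 : Unitization ℤ R)).snd = 0 := by
    have h := map_zsmul f2 b.fst 1
    refine h.trans ?_
    change b.fst • (0 : R) = 0
    simp
  ext
  · rw [Unitization.fst_add, h1]; exact (add_zero _).symm
  · rw [Unitization.snd_add, h2]; exact (zero_add _).symm

end Pool.TF48
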